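import Mathlib

set_option autoImplicit false

/-!
# Bounded sequences with small higher differences have small first differences
-/

namespace Pool.Agent.H737_BLT

/-- forward difference -/
def D1 {V : Type*} [AddCommGroup V] (a : ℕ → V) : ℕ → V := fun j => a (j + 1) - a j

/-- iterated forward difference -/
def Dn {V : Type*} [AddCommGroup V] : ℕ → (ℕ → V) → ℕ → V
  | 0, a => a
  | (m + 1), a => Dn m (D1 a)

theorem Dn_shift {V : Type*} [AddCommGroup V] (m : ℕ) : ∀ (a : ℕ → V) (j i : ℕ),
    Dn m (fun i => a (i + j)) i = Dn m a (i + j) := by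
  induction m with
  | zero => intro a j i; rfl
  | succ m ih =>
    intro a j i
    have h : D1 (fun i => a (i + j)) = fun i => D1 a (i + j) := by
      funext i
      simp only [D1]
      congr 2
      omega
    simp only [Dn]
    rw [h]
    exact ih (D1 a) j i

theorem seq_small : ∀ (m : ℕ) (B c : ℝ), 0 < B → 0 < c → ∃ (N : ℕ) (ε : ℝ), 0 < ε ∧
    ∀ a : ℕ → ℂ, (∀ j ≤ N, ‖a j‖ ≤ B) → (∀ j ≤ N, ‖Dn m a j‖ ≤ ε) → ‖a 1 - a 0‖ < c := by
  intro m
  induction m with
  | zero =>
    intro B c hB hc
    refine ⟨1, c / 3, by positivity, fun a _ h2 => ?_⟩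
    have e1 := h2 1 le_rfl
    have e0 := h2 0 (by omega)
    simp only [Dn] at e1 e0
    calc ‖a 1 - a 0‖ ≤ ‖a 1‖ + ‖a 0‖ := norm_sub_le _ _
      _ ≤ c / 3 + c / 3 := by linarith
      _ < c := by linarith
  | succ m ih =>
    intro B c hB hc
    obtain ⟨n, hn⟩ := exists_nat_gt (4 * B / c)
    have hn0 : (0 : ℝ) < n := lt_of_le_of_lt (by positivity) hn
    obtain ⟨N₀, ε, hε, hP⟩ := ih (2 * B) (c / (4 * n)) (by positivity) (by positivity)
    refine ⟨N₀ + n + 2, ε, hε, fun a h1 h2 => ?_⟩
    have hb : ∀ j ≤ n, ‖D1 a (j + 1) - D1 a j‖ < c / (4 * n) := by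
      intro j hj
      have := hP (fun i => D1 a (i + j)) (fun i hi => ?_) (fun i hi => ?_)
      · simpa [add_comm] using this
      · simp only [D1]
        calc ‖a (i + j + 1) - a (i + j)‖ ≤ ‖a (i + j + 1)‖ + ‖a (i + j)‖ := norm_sub_le _ _
          _ ≤ B + B := add_le_add (h1 _ (by omega)) (h1 _ (by omega))
          _ = 2 * B := by ring
      · rw [Dn_shift]
        exact h2 (i + j) (by omega)
    have hd : ∀ i ≤ n, ‖D1 a i - D1 a 0‖ ≤ i * (c / (4 * n)) := by
      intro i
      induction i with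
      | zero => intro _; simp
      | succ i ihi =>
        intro hi
        have e1 := ihi (by omega)
        have e2 := hb i (by omega)
        have e3 : D1 a (i + 1) - D1 a 0 = (D1 a (i + 1) - D1 a i) + (D1 a i - D1 a 0) := by ring
        rw [e3]
        refine (norm_add_le _ _).trans ?_
        push_cast
        nlinarith
    have hsum : a n - a 0 = ∑ i ∈ Finset.range n, D1 a i := by
      simp only [D1]
      rw [Finset.sum_range_sub]
    have hmul : (n : ℂ) * D1 a 0 = (a n - a 0) - ∑ i ∈ Finset.range n, (D1 a i - D1 a 0) := by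
      rw [hsum, Finset.sum_sub_distrib]
      simp
    have hnorm : (n : ℝ) * ‖D1 a 0‖ ≤ 2 * B + n * (c / 4) := by
      have e1 : (n : ℝ) * ‖D1 a 0‖ = ‖(n : ℂ) * D1 a 0‖ := by
        rw [norm_mul]; simp
      rw [e1, hmul]
      refine (norm_sub_le _ _).trans ?_
      have e2 : ‖a n - a 0‖ ≤ 2 * B := by
        calc ‖a n - a 0‖ ≤ ‖a n‖ + ‖a 0‖ := norm_sub_le _ _
          _ ≤ B + B := add_le_add (h1 _ (by omega)) (h1 _ (by omega))
          _ = 2 * B := by ring
      have e3 : ‖∑ i ∈ Finset.range n, (D1 a i - D1 a 0)‖ ≤ n * (c / 4) := by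
        refine (norm_sum_le _ _).trans ?_
        have : ∀ i ∈ Finset.range n, ‖D1 a i - D1 a 0‖ ≤ c / 4 := by
          intro i hi
          rw [Finset.mem_range] at hi
          refine (hd i hi.le).trans ?_
          have hi' : (i : ℝ) ≤ n := by exact_mod_cast hi.le
          calc (i : ℝ) * (c / (4 * n)) ≤ n * (c / (4 * n)) := by gcongr
            _ = c / 4 := by field_simp
        refine (Finset.sum_le_sum this).trans ?_
        simp
      linarith
    have hfin : ‖D1 a 0‖ < c := by
      have h4 : 4 * B < n * c := by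
        rw [div_lt_iff₀ hc] at hn
        linarith
      have : (n : ℝ) * ‖D1 a 0‖ < n * c := by nlinarith
      exact lt_of_mul_lt_mul_left this hn0.le
    simpa [D1] using hfin

end Pool.Agent.H737_BLT
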