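import Mathlib
import Pool.Agent.H737_BLT.Seq

set_option autoImplicit false

/-!
# Systems of commuting unitaries with a cyclic Riesz vector, and operators that commute with them
up to characters
-/

namespace Pool.Agent.H737_BLT

open scoped ENNReal NNReal ComplexConjugate
open Filter Topology MeasureTheory

/-- the squared norm in `L²` as a lower integral -/
theorem nsq {X : Type*} [MeasurableSpace X] {μ : Measure X} (f : Lp ℂ 2 μ) :
    ∫⁻ x, ‖f x‖ₑ ^ 2 ∂μ = ENNReal.ofReal (‖f‖ ^ 2) := by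
  have h1 : eLpNorm f 2 μ = (∫⁻ x, ‖f x‖ₑ ^ 2 ∂μ) ^ (1 / 2 : ℝ) := by
    rw [eLpNorm_eq_lintegral_rpow_enorm_toReal (by norm_num) (by norm_num)]
    simp
  have h2 : ‖f‖ₑ = eLpNorm f 2 μ := by
    rw [Lp.enorm_def]
  have h3 : ENNReal.ofReal (‖f‖ ^ 2) = ‖f‖ₑ ^ 2 := by
    rw [ENNReal.ofReal_pow (norm_nonneg _), ofReal_norm]
  rw [h3, h2, h1, ← ENNReal.rpow_natCast, ← ENNReal.rpow_mul]
  norm_num

/-- Chebyshev in `L²` -/
theorem cheb {X : Type*} [MeasurableSpace X] {μ : Measure X} (f : Lp ℂ 2 μ) {ε : ℝ} (hε : 0 < ε) :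
    μ {x | ε < ‖f x‖} ≤ ENNReal.ofReal (‖f‖ ^ 2 / ε ^ 2) := by
  have h1 := mul_meas_ge_le_lintegral₀ (μ := μ) (f := fun x => ‖f x‖ₑ ^ 2)
    ((Lp.aestronglyMeasurable f).enorm.pow_const 2) (ENNReal.ofReal (ε ^ 2))
  rw [nsq] at h1
  have h2 : {x | ε < ‖f x‖} ⊆ {x | ENNReal.ofReal (ε ^ 2) ≤ ‖f x‖ₑ ^ 2} := by
    intro x hx
    simp only [Set.mem_ofPred_eq] at hx ⊢
    rw [ENNReal.ofReal_pow hε.le, ← ofReal_norm]
    gcongr
  have h3 : ENNReal.ofReal (ε ^ 2) * μ {x | ε < ‖f x‖} ≤ ENNReal.ofReal (‖f‖ ^ 2) :=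
    (mul_le_mul_right (measure_mono h2) _).trans h1
  rw [ENNReal.ofReal_div_of_pos (by positivity)]
  rw [ENNReal.le_div_iff_mul_le (Or.inl (by positivity)) (Or.inl ENNReal.ofReal_ne_top)]
  rwa [mul_comm]

/-- A unitary system over the group `K` with dual measure space `X` and a cyclic Riesz vector. -/
structure Sys (X : Type*) [MeasurableSpace X] [AddCommGroup X] (μ : Measure X)
    (K : Type*) [AddCommGroup K] (H : Type*) [NormedAddCommGroup H] [InnerProductSpace ℂ H] where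
  e : K → X → ℂ
  e_meas : ∀ k, Measurable (e k)
  e_norm : ∀ k x, ‖e k x‖ = 1
  e_addx : ∀ k x y, e k (x + y) = e k x * e k y
  e_addk : ∀ k l x, e (k + l) x = e k x * e l x
  b : HilbertBasis K ℂ (Lp ℂ 2 μ)
  hb : ∀ k, (b k : X → ℂ) =ᵐ[μ] e k
  T : Lp ℂ 2 μ ≃L[ℂ] H
  U : K → H →L[ℂ] H
  g : H
  hTb : ∀ k, T (b k) = U k g
  hU : ∀ k l, U k (U l g) = U (k + l) g
  hU0 : U 0 g = g

variable {X : Type*} [MeasurableSpace X] [AddCommGroup X] {μ : Measure X}
  {K : Type*} [AddCommGroup K] {H : Type*} [NormedAddCommGroup H] [InnerProductSpace ℂ H]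

/-- a bounded operator on `L²` of the form `u ↦ (u ∘ τ) w` on a basis has this form everywhere -/
theorem form_closed (b : HilbertBasis K ℂ (Lp ℂ 2 μ)) (L : Lp ℂ 2 μ →L[ℂ] Lp ℂ 2 μ) (τ : X → X)
    (hτ : Measure.QuasiMeasurePreserving τ μ μ) (w : X → ℂ)
    (h : ∀ k, (L (b k) : X → ℂ) =ᵐ[μ] fun x => (b k : X → ℂ) (τ x) * w x) (u : Lp ℂ 2 μ) :
    (L u : X → ℂ) =ᵐ[μ] fun x => (u : X → ℂ) (τ x) * w x := by
  let S : Submodule ℂ (Lp ℂ 2 μ) :=
    { carrier := {u | (L u : X → ℂ) =ᵐ[μ] fun x => (u : X → ℂ) (τ x) * w x}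
      zero_mem' := by
        simp only [Set.mem_ofPred_eq, map_zero]
        filter_upwards [Lp.coeFn_zero ℂ 2 μ, hτ.ae_eq_comp (Lp.coeFn_zero ℂ 2 μ)] with x h1 h2
        simp only [Function.comp] at h2
        rw [h1, h2]; simp
      add_mem' := by
        intro u v hu hv
        simp only [Set.mem_ofPred_eq, map_add] at hu hv ⊢
        filter_upwards [hu, hv, Lp.coeFn_add (L u) (L v), hτ.ae_eq_comp (Lp.coeFn_add u v)]
          with x h1 h2 h3 h4
        simp only [Function.comp, Pi.add_apply] at h3 h4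
        rw [h3, h4, h1, h2]; ring
      smul_mem' := by
        intro c u hu
        simp only [Set.mem_ofPred_eq, map_smul] at hu ⊢
        filter_upwards [hu, Lp.coeFn_smul c (L u), hτ.ae_eq_comp (Lp.coeFn_smul c u)]
          with x h1 h3 h4
        simp only [Function.comp, Pi.smul_apply, smul_eq_mul] at h3 h4
        rw [h3, h4, h1]; ring }
  have hclosed : IsClosed (S : Set (Lp ℂ 2 μ)) := by
    apply IsSeqClosed.isClosed
    intro v u hv hvu
    have hLv : Tendsto (fun n => L (v n)) atTop (𝓝 (L u)) := (L.continuous.tendsto u).comp hvu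
    obtain ⟨ns, hns, hns2⟩ := (tendstoInMeasure_of_tendsto_Lp hvu).exists_seq_tendsto_ae
    have hLv2 : Tendsto (fun n => L (v (ns n))) atTop (𝓝 (L u)) := hLv.comp hns.tendsto_atTop
    obtain ⟨ms, hms, hms2⟩ := (tendstoInMeasure_of_tendsto_Lp hLv2).exists_seq_tendsto_ae
    have hall : ∀ᵐ x ∂μ, ∀ n, (L (v n) : X → ℂ) x = (v n : X → ℂ) (τ x) * w x := by
      rw [ae_all_iff]
      exact fun n => hv n
    change (L u : X → ℂ) =ᵐ[μ] fun x => (u : X → ℂ) (τ x) * w x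
    filter_upwards [hms2, hτ.ae hns2, hall] with x h1 h2 h3
    have h4 : Tendsto (fun i => (v (ns (ms i)) : X → ℂ) (τ x) * w x) atTop
        (𝓝 ((u : X → ℂ) (τ x) * w x)) := (h2.comp hms.tendsto_atTop).mul_const _
    refine tendsto_nhds_unique h1 ?_
    simpa only [h3] using h4
  have hspan : (Submodule.span ℂ (Set.range b)).topologicalClosure ≤ S := by
    apply Submodule.topologicalClosure_minimal _ _ hclosed
    rw [Submodule.span_le]
    rintro _ ⟨k, rfl⟩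
    exact h k
  have : u ∈ (Submodule.span ℂ (Set.range b)).topologicalClosure := by
    rw [b.dense_span]; trivial
  exact hspan this

/-- the multiplier is essentially bounded by the operator norm -/
theorem form_bound [MeasurableAdd X] [μ.IsAddRightInvariant] [IsFiniteMeasure μ]
    (L : Lp ℂ 2 μ →L[ℂ] Lp ℂ 2 μ) (a : X) (w : Lp ℂ 2 μ) {C : ℝ}
    (hC0 : 0 ≤ C) (hC : ∀ u, ‖L u‖ ≤ C * ‖u‖)
    (h : ∀ u, (L u : X → ℂ) =ᵐ[μ] fun x => (u : X → ℂ) (x + a) * w x) :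
    ∀ᵐ x ∂μ, ‖w x‖ ≤ C := by
  have hmp : MeasurePreserving (fun x : X => x + a) μ μ := measurePreserving_add_right μ a
  have key : (fun x => ‖w x‖ₑ ^ 2) ≤ᵐ[μ] fun _ => ENNReal.ofReal (C ^ 2) := by
    refine ae_le_of_forall_setLIntegral_le_of_sigmaFinite₀
      ((Lp.aestronglyMeasurable w).enorm.pow_const 2) fun E hE hE2 => ?_
    have hmp' : MeasurePreserving (fun x : X => x - a) μ μ := by
      simpa [sub_eq_add_neg] using measurePreserving_add_right μ (-a)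
    have hF : MeasurableSet ((fun x : X => x - a) ⁻¹' E) := hmp'.measurable hE
    have hFμ : μ ((fun x : X => x - a) ⁻¹' E) = μ E := hmp'.measure_preimage hE.nullMeasurableSet
    set u : Lp ℂ 2 μ := indicatorConstLp 2 hF (measure_ne_top μ _) (1 : ℂ) with hu
    have h1 : ‖L u‖ ^ 2 ≤ C ^ 2 * (μ.real E) := by
      have h2 : ‖u‖ ^ 2 = μ.real E := by
        rw [hu, norm_indicatorConstLp (by norm_num) (by norm_num)]
        simp only [norm_one, one_mul, ENNReal.toReal_ofNat, Measure.real, hFμ]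
        rw [← Real.rpow_natCast, ← Real.rpow_mul ENNReal.toReal_nonneg]
        norm_num
      calc ‖L u‖ ^ 2 ≤ (C * ‖u‖) ^ 2 := by gcongr; exact hC u
        _ = C ^ 2 * ‖u‖ ^ 2 := by ring
        _ = _ := by rw [h2]
    have h3 : ∫⁻ x, ‖L u x‖ₑ ^ 2 ∂μ = ∫⁻ x in E, ‖w x‖ₑ ^ 2 ∂μ := by
      rw [← lintegral_indicator hE]
      refine lintegral_congr_ae ?_
      have h4 : (u : X → ℂ) =ᵐ[μ] ((fun x : X => x - a) ⁻¹' E).indicator fun _ => (1 : ℂ) :=
        indicatorConstLp_coeFn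
      filter_upwards [h u, hmp.quasiMeasurePreserving.ae_eq_comp h4] with x h5 h6
      simp only [Function.comp] at h6
      rw [h5, h6]
      by_cases hx : x ∈ E
      · have : x + a ∈ (fun x : X => x - a) ⁻¹' E := by simpa using hx
        rw [Set.indicator_of_mem this, Set.indicator_of_mem hx, one_mul]
      · have : x + a ∉ (fun x : X => x - a) ⁻¹' E := by simpa using hx
        rw [Set.indicator_of_notMem this, Set.indicator_of_notMem hx]
        simp
    rw [← h3, nsq, lintegral_const]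
    refine (ENNReal.ofReal_le_ofReal h1).trans ?_
    rw [ENNReal.ofReal_mul (by positivity), Measure.restrict_apply MeasurableSet.univ,
      Set.univ_inter, Measure.real, ENNReal.ofReal_toReal (measure_ne_top μ _)]
  filter_upwards [key] with x hx
  rw [← ofReal_norm, ← ENNReal.ofReal_pow (norm_nonneg _),
    ENNReal.ofReal_le_ofReal_iff (by positivity)] at hx
  exact (abs_le_of_sq_le_sq' hx hC0).2

namespace Sys

variable (S : Sys X μ K H)

/-- the operator `A` commutes with the system up to the character given by `a` -/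
def Cov (A : H ≃ₗᵢ[ℂ] H) (a : X) : Prop := ∀ k x, A (S.U k x) = S.e k a • S.U k (A x)

/-- the coefficient function of `A g` -/
noncomputable def c (A : H ≃ₗᵢ[ℂ] H) : Lp ℂ 2 μ := S.T.symm (A S.g)

theorem T_b0 : S.T (S.b 0) = S.g := by rw [S.hTb, S.hU0]

theorem mulU (k : K) (x : H) :
    (S.T.symm (S.U k x) : X → ℂ) =ᵐ[μ] fun θ => S.T.symm x θ * S.e k θ := by
  have h := form_closed S.b
    ((S.T.symm : H →L[ℂ] Lp ℂ 2 μ) ∘L (S.U k) ∘L (S.T : Lp ℂ 2 μ →L[ℂ] H)) id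
    (Measure.QuasiMeasurePreserving.id μ) (S.e k) (fun l => by
      have h1 : ((S.T.symm : H →L[ℂ] Lp ℂ 2 μ) ∘L (S.U k) ∘L (S.T : Lp ℂ 2 μ →L[ℂ] H)) (S.b l)
          = S.b (k + l) := by
        simp only [ContinuousLinearMap.comp_apply, ContinuousLinearEquiv.coe_coe]
        rw [S.hTb, S.hU, ← S.hTb, ContinuousLinearEquiv.symm_apply_apply]
      rw [h1]
      filter_upwards [S.hb (k + l), S.hb l] with x h2 h3
      rw [h2, id, h3, S.e_addk, mul_comm]) (S.T.symm x)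
  simpa using h

variable [MeasurableAdd X] [μ.IsAddRightInvariant]

theorem form {A : H ≃ₗᵢ[ℂ] H} {a : X} (hA : S.Cov A a) (x : H) :
    (S.T.symm (A x) : X → ℂ) =ᵐ[μ] fun θ => S.T.symm x (θ + a) * S.c A θ := by
  have hmp : MeasurePreserving (fun x : X => x + a) μ μ := measurePreserving_add_right μ a
  have h := form_closed S.b
    ((S.T.symm : H →L[ℂ] Lp ℂ 2 μ) ∘L (A.toContinuousLinearEquiv : H →L[ℂ] H) ∘L
      (S.T : Lp ℂ 2 μ →L[ℂ] H)) (fun x => x + a)
    hmp.quasiMeasurePreserving (S.c A) (fun k => by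
      have h1 : ((S.T.symm : H →L[ℂ] Lp ℂ 2 μ) ∘L (A.toContinuousLinearEquiv : H →L[ℂ] H) ∘L
          (S.T : Lp ℂ 2 μ →L[ℂ] H)) (S.b k) = S.e k a • S.T.symm (S.U k (A S.g)) := by
        simp only [ContinuousLinearMap.comp_apply, ContinuousLinearEquiv.coe_coe,
          LinearIsometryEquiv.coe_toContinuousLinearEquiv]
        rw [S.hTb, hA, map_smul]
      rw [h1]
      filter_upwards [Lp.coeFn_smul (S.e k a) (S.T.symm (S.U k (A S.g))), S.mulU k (A S.g),
        hmp.quasiMeasurePreserving.ae_eq_comp (S.hb k)] with θ h2 h3 h4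
      simp only [Function.comp] at h4
      rw [h2, Pi.smul_apply, h3, h4, S.e_addx, smul_eq_mul, c]
      ring) (S.T.symm x)
  simpa using h

/-- the constant bounding all multipliers -/
noncomputable def C : ℝ := ‖(S.T.symm : H →L[ℂ] Lp ℂ 2 μ)‖ * ‖(S.T : Lp ℂ 2 μ →L[ℂ] H)‖ + 1

theorem C_pos : 0 < S.C := by unfold C; positivity

theorem c_bound [IsFiniteMeasure μ] {A : H ≃ₗᵢ[ℂ] H} {a : X} (hA : S.Cov A a) :
    ∀ᵐ θ ∂μ, ‖S.c A θ‖ ≤ S.C := by
  refine form_bound ((S.T.symm : H →L[ℂ] Lp ℂ 2 μ) ∘L (A.toContinuousLinearEquiv : H →L[ℂ] H) ∘L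
      (S.T : Lp ℂ 2 μ →L[ℂ] H)) a (S.c A) S.C_pos.le (fun u => ?_) (fun u => ?_)
  · simp only [ContinuousLinearMap.comp_apply, ContinuousLinearEquiv.coe_coe,
      LinearIsometryEquiv.coe_toContinuousLinearEquiv]
    have h1 : ‖S.T.symm (A (S.T u))‖ ≤ ‖(S.T.symm : H →L[ℂ] Lp ℂ 2 μ)‖ * ‖A (S.T u)‖ :=
      (S.T.symm : H →L[ℂ] Lp ℂ 2 μ).le_opNorm _
    rw [LinearIsometryEquiv.norm_map] at h1
    have h2 : ‖S.T u‖ ≤ ‖(S.T : Lp ℂ 2 μ →L[ℂ] H)‖ * ‖u‖ :=
      (S.T : Lp ℂ 2 μ →L[ℂ] H).le_opNorm _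
    calc ‖S.T.symm (A (S.T u))‖ ≤ ‖(S.T.symm : H →L[ℂ] Lp ℂ 2 μ)‖ * ‖S.T u‖ := h1
      _ ≤ ‖(S.T.symm : H →L[ℂ] Lp ℂ 2 μ)‖ * (‖(S.T : Lp ℂ 2 μ →L[ℂ] H)‖ * ‖u‖) := by gcongr
      _ ≤ S.C * ‖u‖ := by
        unfold C
        nlinarith [norm_nonneg u, norm_nonneg (S.T.symm : H →L[ℂ] Lp ℂ 2 μ)]
  · have := S.form hA (S.T u)
    simpa using this

theorem Cov.one : S.Cov (LinearIsometryEquiv.refl ℂ H) 0 := by
  intro k x
  have h0 : S.e k 0 = 1 := by
    have h := S.e_addx k 0 0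
    rw [add_zero] at h
    have hne : S.e k 0 ≠ 0 := by
      intro h0
      have := S.e_norm k 0
      rw [h0] at this
      simp at this
    have h' : S.e k 0 * 1 = S.e k 0 * S.e k 0 := by rw [mul_one]; exact h
    exact (mul_left_cancel₀ hne h').symm
  simp [h0]

omit [MeasurableAdd X] [μ.IsAddRightInvariant] in
variable {S} in
theorem Cov.trans {A B : H ≃ₗᵢ[ℂ] H} {a b : X} (hA : S.Cov A a) (hB : S.Cov B b) :
    S.Cov (A.trans B) (a + b) := by
  intro k x
  simp only [LinearIsometryEquiv.trans_apply]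
  rw [hA, map_smul, hB, smul_smul, S.e_addx]

end Sys

end Pool.Agent.H737_BLT
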