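import Mathlib
import Pool.Agent.H737_BLT.Core

set_option autoImplicit false
set_option linter.unusedSectionVars false

/-!
# The key inequality
-/

namespace Pool.Agent.H737_BLT

open scoped ENNReal NNReal ComplexConjugate
open Filter Topology MeasureTheory

theorem arg_small {z : ℂ} (h : ‖z - 1‖ < 1 / 2) : |Complex.arg z| ≤ 3 / 4 := by
  have h1 := Complex.norm_log_one_add_half_le_self (z := z - 1) h.le
  rw [add_sub_cancel] at h1
  have h2 : |(Complex.log z).im| ≤ ‖Complex.log z‖ := Complex.abs_im_le_norm _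
  rw [Complex.log_im] at h2
  linarith

theorem ne_zero_of_near {z : ℂ} (h : ‖z - 1‖ < 1 / 2) : z ≠ 0 := by
  rintro rfl
  norm_num at h

theorem arg_rel {z1 z2 z3 z4 : ℂ} {s : ℝ} (hs0 : 0 ≤ s) (hs : s < 1 / 2)
    (h1 : ‖z1 - 1‖ < 1 / 2) (h2 : ‖z2 - 1‖ < 1 / 2) (h3 : ‖z3 - 1‖ < 1 / 2) (h4 : ‖z4 - 1‖ < 1 / 2)
    (h : z1 * z2 = Complex.exp ((2 * Real.pi * s : ℝ) * Complex.I) * (z3 * z4)) :
    Complex.arg z1 + Complex.arg z2 - Complex.arg z3 - Complex.arg z4 = 2 * Real.pi * s := by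
  have n1 := ne_zero_of_near h1
  have n2 := ne_zero_of_near h2
  have n3 := ne_zero_of_near h3
  have n4 := ne_zero_of_near h4
  have ha : ((Complex.arg (z1 * z2) : ℝ) : Real.Angle) =
      ((Complex.arg (Complex.exp ((2 * Real.pi * s : ℝ) * Complex.I) * (z3 * z4)) : ℝ) :
        Real.Angle) := by rw [h]
  rw [Complex.arg_mul_coe_angle n1 n2, Complex.arg_mul_coe_angle (Complex.exp_ne_zero _)
    (mul_ne_zero n3 n4), Complex.arg_mul_coe_angle n3 n4, Complex.arg_exp_mul_I] at ha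
  rw [Real.Angle.coe_toIocMod] at ha
  have hb : ((Complex.arg z1 + Complex.arg z2 - Complex.arg z3 - Complex.arg z4 -
      2 * Real.pi * s : ℝ) : Real.Angle) = 0 := by
    rw [Real.Angle.coe_sub, Real.Angle.coe_sub, Real.Angle.coe_sub, Real.Angle.coe_add, ha]
    abel
  rw [Real.Angle.coe_eq_zero_iff] at hb
  obtain ⟨n, hn⟩ := hb
  have hpi := Real.pi_gt_three
  have hpi2 := Real.pi_gt_d2
  have b1 := abs_le.1 (arg_small h1)
  have b2 := abs_le.1 (arg_small h2)
  have b3 := abs_le.1 (arg_small h3)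
  have b4 := abs_le.1 (arg_small h4)
  have hn0 : n = 0 := by
    rw [zsmul_eq_mul] at hn
    by_contra hne
    have hcase : (1 : ℝ) ≤ n ∨ (n : ℝ) ≤ -1 := by
      rcases lt_or_gt_of_ne hne with h | h
      · right
        have : n ≤ -1 := by omega
        exact_mod_cast this
      · left
        have : 1 ≤ n := by omega
        exact_mod_cast this
    have hs1 : 2 * Real.pi * s ≤ Real.pi := by nlinarith
    have hs2 : 0 ≤ 2 * Real.pi * s := by positivity
    rcases hcase with h | h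
    · nlinarith
    · nlinarith
  rw [hn0, zero_zsmul] at hn
  linarith

namespace Sys

variable {X : Type*} [MeasurableSpace X] [AddCommGroup X] {μ : Measure X}
  {K : Type*} [AddCommGroup K] {H : Type*} [NormedAddCommGroup H] [InnerProductSpace ℂ H]
variable (S : Sys X μ K H)

/-- the set where the multiplier of `A` is not close to one -/
def Bad (A : H ≃ₗᵢ[ℂ] H) : Set X := {θ | 1 / 2 ≤ ‖S.c A θ - 1‖}

theorem Bad_meas (A : H ≃ₗᵢ[ℂ] H) : MeasurableSet (S.Bad A) := by
  have : Measurable fun θ => ‖S.c A θ - 1‖ :=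
    ((Lp.stronglyMeasurable (S.c A)).measurable.sub measurable_const).norm
  exact measurableSet_le measurable_const this

variable [MeasurableAdd X] [μ.IsAddRightInvariant] [IsProbabilityMeasure μ]

/-- **Key inequality.** -/
theorem key {A B : H ≃ₗᵢ[ℂ] H} {a b : X} (hA : S.Cov A a) (hB : S.Cov B b) {s : ℝ}
    (hs0 : 0 < s) (hs : s < 1 / 2)
    (hAB : A (B S.g) = Complex.exp ((2 * Real.pi * s : ℝ) * Complex.I) • B (A S.g)) :
    s ≤ 6 * (μ.real (S.Bad A) + μ.real (S.Bad B)) := by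
  have hmpa : MeasurePreserving (fun x : X => x + a) μ μ := measurePreserving_add_right μ a
  have hmpb : MeasurePreserving (fun x : X => x + b) μ μ := measurePreserving_add_right μ b
  set ζ : ℂ := Complex.exp ((2 * Real.pi * s : ℝ) * Complex.I) with hζ
  -- the relation
  have hrel : ∀ᵐ θ ∂μ, S.c B (θ + a) * S.c A θ = ζ * (S.c A (θ + b) * S.c B θ) := by
    have h1 := S.form hA (B S.g)
    have h2 := S.form hB (A S.g)
    have h3 : S.T.symm (A (B S.g)) = ζ • S.T.symm (B (A S.g)) := by rw [hAB, map_smul]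
    rw [h3] at h1
    filter_upwards [h1, h2, Lp.coeFn_smul ζ (S.T.symm (B (A S.g)))] with θ e1 e2 e3
    rw [e3, Pi.smul_apply, e2, smul_eq_mul] at e1
    exact e1.symm
  set G : Set X := (S.Bad A)ᶜ ∩ ((fun x : X => x + b) ⁻¹' (S.Bad A))ᶜ ∩
    ((S.Bad B)ᶜ ∩ ((fun x : X => x + a) ⁻¹' (S.Bad B))ᶜ) with hG
  have hBA := S.Bad_meas A
  have hBB := S.Bad_meas B
  have hGm : MeasurableSet G :=
    ((hBA.compl).inter (hmpb.measurable hBA).compl).inter
      ((hBB.compl).inter (hmpa.measurable hBB).compl)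
  have hGc : μ.real Gᶜ ≤ 2 * (μ.real (S.Bad A) + μ.real (S.Bad B)) := by
    have e1 : Gᶜ ⊆ ((S.Bad A) ∪ ((fun x : X => x + b) ⁻¹' (S.Bad A))) ∪
        ((S.Bad B) ∪ ((fun x : X => x + a) ⁻¹' (S.Bad B))) := by
      intro x hx
      simp only [hG, Set.mem_compl_iff, Set.mem_inter_iff, Set.mem_union, not_and_or,
        not_not] at hx ⊢
      exact hx
    have e2 : μ.real ((fun x : X => x + b) ⁻¹' (S.Bad A)) = μ.real (S.Bad A) := by
      rw [Measure.real, hmpb.measure_preimage hBA.nullMeasurableSet, Measure.real]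
    have e3 : μ.real ((fun x : X => x + a) ⁻¹' (S.Bad B)) = μ.real (S.Bad B) := by
      rw [Measure.real, hmpa.measure_preimage hBB.nullMeasurableSet, Measure.real]
    calc μ.real Gᶜ ≤ _ := measureReal_mono e1
      _ ≤ _ := measureReal_union_le _ _
      _ ≤ (μ.real (S.Bad A) + μ.real ((fun x : X => x + b) ⁻¹' (S.Bad A))) +
          (μ.real (S.Bad B) + μ.real ((fun x : X => x + a) ⁻¹' (S.Bad B))) :=
        add_le_add (measureReal_union_le _ _) (measureReal_union_le _ _)
      _ = _ := by rw [e2, e3]; ring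
  -- the function
  set α : X → ℝ := fun θ => Complex.arg (S.c A θ) with hα
  set β : X → ℝ := fun θ => Complex.arg (S.c B θ) with hβ
  have hαm : Measurable α := Complex.measurable_arg.comp (Lp.stronglyMeasurable (S.c A)).measurable
  have hβm : Measurable β := Complex.measurable_arg.comp (Lp.stronglyMeasurable (S.c B)).measurable
  have hαb : ∀ θ, ‖α θ‖ ≤ Real.pi := fun θ => Complex.abs_arg_le_pi _
  have hβb : ∀ θ, ‖β θ‖ ≤ Real.pi := fun θ => Complex.abs_arg_le_pi _
  have hαi : Integrable α μ := Integrable.of_bound hαm.aestronglyMeasurable _ (ae_of_all _ hαb)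
  have hβi : Integrable β μ := Integrable.of_bound hβm.aestronglyMeasurable _ (ae_of_all _ hβb)
  have hαi' : Integrable (fun θ => α (θ + b)) μ := hmpb.integrable_comp_of_integrable hαi
  have hβi' : Integrable (fun θ => β (θ + a)) μ := hmpa.integrable_comp_of_integrable hβi
  set Φ : X → ℝ := fun θ => β (θ + a) + α θ - α (θ + b) - β θ - 2 * Real.pi * s with hΦ
  have hΦi : Integrable Φ μ := (((hβi'.add hαi).sub hαi').sub hβi).sub (integrable_const _)
  have hint : ∫ θ, Φ θ ∂μ = - (2 * Real.pi * s) := by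
    have e1 : ∫ θ, α (θ + b) ∂μ = ∫ θ, α θ ∂μ := by
      exact integral_add_right_eq_self α b
    have e2 : ∫ θ, β (θ + a) ∂μ = ∫ θ, β θ ∂μ := by
      exact integral_add_right_eq_self β a
    have e3 : ∫ θ, Φ θ ∂μ = ∫ θ, β (θ + a) ∂μ + ∫ θ, α θ ∂μ - ∫ θ, α (θ + b) ∂μ -
        ∫ θ, β θ ∂μ - 2 * Real.pi * s := by
      have i1 : Integrable (fun θ => β (θ + a) + α θ) μ := hβi'.add hαi
      have i2 : Integrable (fun θ => β (θ + a) + α θ - α (θ + b)) μ := i1.sub hαi'
      have i3 : Integrable (fun θ => β (θ + a) + α θ - α (θ + b) - β θ) μ := i2.sub hβi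
      simp only [hΦ]
      rw [integral_sub i3 (integrable_const _), integral_sub i2 hβi, integral_sub i1 hαi',
        integral_add hβi' hαi]
      simp
    rw [e3, e1, e2]; ring
  have hzero : ∀ᵐ θ ∂μ, θ ∈ G → Φ θ = 0 := by
    filter_upwards [hrel] with θ hθ hθG
    simp only [hG, Set.mem_inter_iff, Set.mem_compl_iff, Set.mem_preimage, Bad,
      Set.mem_ofPred_eq, not_le] at hθG
    have := arg_rel hs0.le hs hθG.2.2 hθG.1.1 hθG.1.2 hθG.2.1 hθ
    simp only [hΦ, hα, hβ]
    linarith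
  have hbd : ∀ θ, ‖Φ θ‖ ≤ (4 + 2 * s) * Real.pi := by
    intro θ
    have b1 := abs_le.1 (hαb θ)
    have b2 := abs_le.1 (hαb (θ + b))
    have b3 := abs_le.1 (hβb θ)
    have b4 := abs_le.1 (hβb (θ + a))
    have hps : 0 ≤ 2 * Real.pi * s := by positivity
    rw [Real.norm_eq_abs, abs_le]
    simp only [hΦ]
    constructor
    · linarith
    · linarith
  have hfin : 2 * Real.pi * s ≤ (4 + 2 * s) * Real.pi * μ.real Gᶜ := by
    have e1 : ∫ θ, Φ θ ∂μ = ∫ θ in Gᶜ, Φ θ ∂μ := by
      rw [← integral_add_compl hGm hΦi]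
      have : ∫ θ in G, Φ θ ∂μ = 0 := by
        rw [setIntegral_congr_ae (g := fun _ => (0 : ℝ)) hGm hzero]
        simp
      rw [this, zero_add]
    have e2 : ‖∫ θ in Gᶜ, Φ θ ∂μ‖ ≤ (4 + 2 * s) * Real.pi * μ.real Gᶜ :=
      norm_setIntegral_le_of_norm_le_const (measure_lt_top μ _) (fun θ _ => hbd θ)
    rw [← e1, hint, norm_neg, Real.norm_of_nonneg (by positivity)] at e2
    exact e2
  have hpi := Real.pi_pos
  have h5 : 2 * s ≤ (4 + 2 * s) * μ.real Gᶜ := by
    have : Real.pi * (2 * s) ≤ Real.pi * ((4 + 2 * s) * μ.real Gᶜ) := by linarith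
    exact le_of_mul_le_mul_left this hpi
  have h6 : 0 ≤ μ.real Gᶜ := measureReal_nonneg
  nlinarith

end Sys

end Pool.Agent.H737_BLT
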