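import Mathlib
import Pool.Agent.H737_BLT.Key

set_option autoImplicit false
set_option linter.unusedSectionVars false

/-!
# Measure of the bad set in terms of higher differences
-/

namespace Pool.Agent.H737_BLT

open scoped ENNReal NNReal ComplexConjugate
open Filter Topology MeasureTheory

theorem Dn_map {V W : Type*} [AddCommGroup V] [AddCommGroup W] (f : V →+ W) (m : ℕ) :
    ∀ (a : ℕ → V) (j : ℕ), Dn m (fun i => f (a i)) j = f (Dn m a j) := by
  induction m with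
  | zero => intro a j; rfl
  | succ m ih =>
    intro a j
    have h : D1 (fun i => f (a i)) = fun i => f (D1 a i) := by
      funext i
      simp [D1]
    simp only [Dn]
    rw [h]
    exact ih (D1 a) j

theorem Dn_coe {X : Type*} [MeasurableSpace X] {μ : Measure X} (m : ℕ) :
    ∀ (w : ℕ → Lp ℂ 2 μ), ∀ᵐ θ ∂μ, ∀ j, ((Dn m w j : Lp ℂ 2 μ) : X → ℂ) θ = Dn m (fun i => (w i : X → ℂ) θ) j := by
  induction m with
  | zero => intro w; exact ae_of_all _ fun θ j => rfl
  | succ m ih =>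
    intro w
    have h : ∀ᵐ θ ∂μ, ∀ i, ((D1 w i : Lp ℂ 2 μ) : X → ℂ) θ = D1 (fun i => (w i : X → ℂ) θ) i := by
      rw [ae_all_iff]
      intro i
      exact Lp.coeFn_sub (w (i + 1)) (w i)
    filter_upwards [ih (D1 w), h] with θ h1 h2 j
    simp only [Dn]
    rw [h1 j]
    congr 1
    funext i
    exact h2 i

/-- the orbit of a vector under an isometry -/
def orb {H : Type*} [NormedAddCommGroup H] [InnerProductSpace ℂ H] (A : H ≃ₗᵢ[ℂ] H) (x : H) :
    ℕ → H := fun j => (A ^ j) x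

theorem Dn_orb {H : Type*} [NormedAddCommGroup H] [InnerProductSpace ℂ H] (A : H ≃ₗᵢ[ℂ] H) (m : ℕ) :
    ∀ (x : H) (j : ℕ), Dn m (orb A x) j = (A ^ j) (Dn m (orb A x) 0) := by
  induction m with
  | zero => intro x j; simp [Dn, orb]
  | succ m ih =>
    intro x j
    have h : D1 (orb A x) = orb A (A x - x) := by
      funext i
      simp only [D1, orb]
      rw [map_sub, pow_succ]
      rfl
    simp only [Dn]
    rw [h]
    exact ih (A x - x) j

/-- the `m`-th difference `(A - 1)^m x` -/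
def dif {H : Type*} [NormedAddCommGroup H] [InnerProductSpace ℂ H] (A : H ≃ₗᵢ[ℂ] H) (m : ℕ) (x : H) :
    H := Dn m (orb A x) 0

theorem dif_zero {H : Type*} [NormedAddCommGroup H] [InnerProductSpace ℂ H] (A : H ≃ₗᵢ[ℂ] H) (x : H) :
    dif A 0 x = x := by simp [dif, Dn, orb]

theorem dif_succ {H : Type*} [NormedAddCommGroup H] [InnerProductSpace ℂ H] (A : H ≃ₗᵢ[ℂ] H) (m : ℕ)
    (x : H) : dif A (m + 1) x = dif A m (A x - x) := by
  have h : D1 (orb A x) = orb A (A x - x) := by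
    funext i
    simp only [D1, orb]
    rw [map_sub, pow_succ]
    rfl
  simp only [dif, Dn]
  rw [h]

theorem norm_Dn_orb {H : Type*} [NormedAddCommGroup H] [InnerProductSpace ℂ H] (A : H ≃ₗᵢ[ℂ] H)
    (m : ℕ) (x : H) (j : ℕ) : ‖Dn m (orb A x) j‖ = ‖dif A m x‖ := by
  rw [Dn_orb, LinearIsometryEquiv.norm_map, dif]

namespace Sys

variable {X : Type*} [MeasurableSpace X] [AddCommGroup X] {μ : Measure X}
  {K : Type*} [AddCommGroup K] {H : Type*} [NormedAddCommGroup H] [InnerProductSpace ℂ H]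
variable (S : Sys X μ K H)
variable [MeasurableAdd X] [μ.IsAddRightInvariant] [IsProbabilityMeasure μ]

variable {S} in
theorem Cov.pow {A : H ≃ₗᵢ[ℂ] H} {a : X} (hA : S.Cov A a) (j : ℕ) : S.Cov (A ^ j) (j • a) := by
  induction j with
  | zero =>
    rw [pow_zero, zero_smul]
    exact Cov.one S
  | succ j ih =>
    rw [pow_succ, succ_nsmul]
    have := Cov.trans hA ih
    rw [add_comm]
    exact this

theorem c_one : ∀ᵐ θ ∂μ, (S.T.symm S.g : X → ℂ) θ = 1 := by
  have h1 : S.T.symm S.g = S.b 0 := by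
    rw [← S.T_b0, ContinuousLinearEquiv.symm_apply_apply]
  rw [h1]
  filter_upwards [S.hb 0] with θ h2
  rw [h2]
  have h := S.e_addk 0 0 θ
  rw [add_zero] at h
  have hne : S.e 0 θ ≠ 0 := by
    intro h0
    have := S.e_norm 0 θ
    rw [h0] at this
    simp at this
  have h' : S.e 0 θ * 1 = S.e 0 θ * S.e 0 θ := by rw [mul_one]; exact h
  exact (mul_left_cancel₀ hne h').symm

/-- **The bad set is controlled by higher differences.** -/
theorem bad_bound (m : ℕ) : ∃ Q : ℝ, 0 < Q ∧ ∀ (A : H ≃ₗᵢ[ℂ] H) (a : X), S.Cov A a →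
    μ.real (S.Bad A) ≤ Q * ‖dif A m S.g‖ ^ 2 := by
  obtain ⟨N, ε, hε, hP⟩ := seq_small m S.C (1 / 2) S.C_pos (by norm_num)
  set τ : ℝ := ‖(S.T.symm : H →L[ℂ] Lp ℂ 2 μ)‖ with hτ
  refine ⟨(N + 1) * (τ ^ 2 / ε ^ 2) + 1, by positivity, fun A a hA => ?_⟩
  set v : ℕ → H := orb A S.g with hv
  set w : ℕ → Lp ℂ 2 μ := fun j => S.T.symm (v j) with hw
  have hbound : ∀ᵐ θ ∂μ, ∀ j, ‖(w j : X → ℂ) θ‖ ≤ S.C := by
    rw [ae_all_iff]
    intro j
    exact S.c_bound (hA.pow j)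
  have hsub : ∀ᵐ θ ∂μ, θ ∈ S.Bad A → θ ∈ ⋃ j ∈ Finset.range (N + 1),
      {θ | ε < ‖((Dn m w j : Lp ℂ 2 μ) : X → ℂ) θ‖} := by
    filter_upwards [hbound, Dn_coe m w, S.c_one] with θ h1 h2 h3 hbad
    by_contra hcon
    simp only [Set.mem_iUnion, Finset.mem_range, Set.mem_ofPred_eq, not_exists, not_lt] at hcon
    have h4 := hP (fun i => (w i : X → ℂ) θ) (fun j _ => h1 j) (fun j hj => by
      rw [← h2 j]
      exact hcon j (by omega))
    have e1 : (w 1 : X → ℂ) θ = S.c A θ := by simp [hw, hv, orb, c]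
    have e0 : (w 0 : X → ℂ) θ = 1 := by
      have : w 0 = S.T.symm S.g := by simp [hw, hv, orb]
      rw [this, h3]
    rw [e1, e0] at h4
    simp only [Bad, Set.mem_ofPred_eq] at hbad
    linarith
  have hwn : ∀ j, ‖Dn m w j‖ ≤ τ * ‖dif A m S.g‖ := by
    intro j
    have e1 : Dn m w j = S.T.symm (Dn m v j) := by
      have := Dn_map (S.T.symm : H →ₗ[ℂ] Lp ℂ 2 μ).toAddMonoidHom m v j
      simpa using this
    rw [e1, ← norm_Dn_orb A m S.g j]
    exact (S.T.symm : H →L[ℂ] Lp ℂ 2 μ).le_opNorm _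
  have hμ : μ (S.Bad A) ≤ ENNReal.ofReal ((N + 1) * (τ ^ 2 / ε ^ 2) * ‖dif A m S.g‖ ^ 2) := by
    calc μ (S.Bad A) ≤ μ (⋃ j ∈ Finset.range (N + 1), {θ | ε < ‖((Dn m w j : Lp ℂ 2 μ) : X → ℂ) θ‖}) :=
          measure_mono_ae hsub
      _ ≤ ∑ j ∈ Finset.range (N + 1), μ {θ | ε < ‖((Dn m w j : Lp ℂ 2 μ) : X → ℂ) θ‖} :=
          measure_biUnion_finset_le _ _
      _ ≤ ∑ j ∈ Finset.range (N + 1), ENNReal.ofReal ((τ ^ 2 / ε ^ 2) * ‖dif A m S.g‖ ^ 2) := by
          refine Finset.sum_le_sum fun j _ => ?_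
          refine (cheb (Dn m w j) hε).trans (ENNReal.ofReal_le_ofReal ?_)
          have h5 : ‖Dn m w j‖ ^ 2 ≤ (τ * ‖dif A m S.g‖) ^ 2 := by
            gcongr
            exact hwn j
          rw [mul_pow] at h5
          rw [div_mul_eq_mul_div]
          gcongr
      _ = _ := by
          rw [Finset.sum_const, Finset.card_range, nsmul_eq_mul, mul_assoc,
            ENNReal.ofReal_mul (p := (N : ℝ) + 1) (by positivity)]
          congr 1
          have : ((N : ℝ) + 1) = ((N + 1 : ℕ) : ℝ) := by push_cast; ring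
          rw [this, ENNReal.ofReal_natCast]
  have h6 : μ.real (S.Bad A) ≤ (N + 1) * (τ ^ 2 / ε ^ 2) * ‖dif A m S.g‖ ^ 2 := by
    rw [Measure.real]
    exact ENNReal.toReal_le_of_le_ofReal (by positivity) hμ
  nlinarith [sq_nonneg ‖dif A m S.g‖]

end Sys

end Pool.Agent.H737_BLT
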