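import Mathlib
import Pool.Agent.H737_BLT.Bad

set_option autoImplicit false
set_option linter.unusedSectionVars false

/-!
# Modulation groups: small differences from moments
-/

namespace Pool.Agent.H737_BLT

open scoped ENNReal NNReal ComplexConjugate
open Filter Topology MeasureTheory

/-- `e^{2πi s y}` -/
noncomputable def ex (t : ℝ) : ℂ := Complex.exp ((2 * Real.pi * t : ℝ) * Complex.I)

theorem norm_ex (t : ℝ) : ‖ex t‖ = 1 := by
  unfold ex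
  rw [Complex.norm_exp_ofReal_mul_I]

theorem ex_add (s t : ℝ) : ex (s + t) = ex s * ex t := by
  unfold ex
  rw [← Complex.exp_add]
  congr 1
  push_cast
  ring

theorem ex_zero : ex 0 = 1 := by simp [ex]

theorem norm_ex_sub_one (t : ℝ) : ‖ex t - 1‖ ≤ 2 * Real.pi * |t| := by
  have := Real.norm_exp_I_mul_ofReal_sub_one_le (x := 2 * Real.pi * t)
  unfold ex
  rw [mul_comm]
  refine this.trans ?_
  rw [Real.norm_eq_abs, abs_mul, abs_of_pos (by positivity : 0 < 2 * Real.pi)]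

theorem norm_ex_sub_one' (t : ℝ) : ‖ex t - 1‖ ≤ 2 := by
  refine (norm_sub_le _ _).trans ?_
  rw [norm_ex, norm_one]
  norm_num

theorem continuous_ex : Continuous ex := by
  unfold ex
  fun_prop

/-- the pointwise bound used for dominated convergence -/
theorem ex_bound (m : ℕ) {p : ℝ} (hp : 0 < p) (hm : p < 2 * m) (t : ℝ) :
    ‖ex t - 1‖ ^ (2 * m) ≤ (2 * Real.pi * |t|) ^ p * 2 ^ (2 * (m : ℝ) - p) := by
  have h1 : ‖ex t - 1‖ ^ (2 * m) = ‖ex t - 1‖ ^ p * ‖ex t - 1‖ ^ (2 * (m : ℝ) - p) := by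
    rw [← Real.rpow_add_of_nonneg (norm_nonneg _) hp.le (by linarith)]
    rw [← Real.rpow_natCast]
    congr 1
    push_cast
    ring
  rw [h1]
  have e1 : ‖ex t - 1‖ ^ p ≤ (2 * Real.pi * |t|) ^ p :=
    Real.rpow_le_rpow (norm_nonneg _) (norm_ex_sub_one t) hp.le
  have e2 : ‖ex t - 1‖ ^ (2 * (m : ℝ) - p) ≤ 2 ^ (2 * (m : ℝ) - p) :=
    Real.rpow_le_rpow (norm_nonneg _) (norm_ex_sub_one' t) (by linarith)
  exact mul_le_mul e1 e2 (by positivity) (by positivity)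

variable {Y : Type*} [MeasurableSpace Y] {ν : Measure Y} {H : Type*} [NormedAddCommGroup H]
  [InnerProductSpace ℂ H]

/-- the difference operators in the picture where the group is a modulation group -/
theorem dif_coe (Φ : H ≃ₗᵢ[ℂ] Lp ℂ 2 ν) (A : H ≃ₗᵢ[ℂ] H) (φ : Y → ℂ)
    (hA : ∀ x, (Φ (A x) : Y → ℂ) =ᵐ[ν] fun y => φ y * Φ x y) (m : ℕ) :
    ∀ x, (Φ (dif A m x) : Y → ℂ) =ᵐ[ν] fun y => (φ y - 1) ^ m * Φ x y := by
  induction m with
  | zero =>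
    intro x
    rw [dif_zero]
    filter_upwards with y
    simp
  | succ m ih =>
    intro x
    rw [dif_succ]
    filter_upwards [ih (A x - x), Lp.coeFn_sub (Φ (A x)) (Φ x), hA x] with y h1 h2 h3
    rw [h1, map_sub, h2, Pi.sub_apply, h3]
    ring

theorem nsq' (f : Lp ℂ 2 ν) : ‖f‖ ^ 2 = ∫ y, ‖f y‖ ^ 2 ∂ν := by
  have h1 : ∫ y, ‖f y‖ ^ 2 ∂ν = (∫⁻ y, ‖f y‖ₑ ^ 2 ∂ν).toReal := by
    have hm : AEStronglyMeasurable (fun y => ‖f y‖ ^ 2) ν := (Lp.aestronglyMeasurable f).norm.pow 2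
    have hn : 0 ≤ᵐ[ν] fun y => ‖f y‖ ^ 2 := ae_of_all _ fun y => sq_nonneg _
    rw [integral_eq_lintegral_of_nonneg_ae hn hm]
    congr 1
    refine lintegral_congr fun y => ?_
    rw [ENNReal.ofReal_pow (norm_nonneg _), ofReal_norm]
  rw [h1, nsq, ENNReal.toReal_ofReal (by positivity)]

/-- **Small differences from moments.** -/
theorem moment_small (Φ : H ≃ₗᵢ[ℂ] Lp ℂ 2 ν) (V : ℝ → H ≃ₗᵢ[ℂ] H) (κ : Y → ℝ) (hκ : Measurable κ)
    (hV : ∀ s x, (Φ (V s x) : Y → ℂ) =ᵐ[ν] fun y => ex (s * κ y) * Φ x y) (m : ℕ) {p : ℝ}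
    (hp : 0 < p) (hm : p < 2 * m) (g : H)
    (hint : Integrable (fun y => |κ y| ^ p * ‖Φ g y‖ ^ 2) ν) :
    Tendsto (fun s : ℝ => ‖dif (V s) m g‖ ^ 2 / s ^ p) (𝓝[>] 0) (𝓝 0) := by
  have h0 : ∀ s, ‖dif (V s) m g‖ ^ 2 = ∫ y, ‖ex (s * κ y) - 1‖ ^ (2 * m) * ‖Φ g y‖ ^ 2 ∂ν := by
    intro s
    rw [← LinearIsometryEquiv.norm_map Φ, nsq']
    refine integral_congr_ae ?_
    filter_upwards [dif_coe Φ (V s) (fun y => ex (s * κ y)) (hV s) m g] with y h1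
    rw [h1, norm_mul, norm_pow, mul_pow, ← pow_mul, mul_comm m 2]
  have h1 : ∀ s : ℝ, ‖dif (V s) m g‖ ^ 2 / s ^ p =
      ∫ y, ‖ex (s * κ y) - 1‖ ^ (2 * m) * ‖Φ g y‖ ^ 2 / s ^ p ∂ν := by
    intro s
    rw [h0, integral_div]
  simp_rw [h1]
  have h2 : ∫ _ : Y, (0 : ℝ) ∂ν = 0 := by simp
  have hgoal : Tendsto (fun s : ℝ => ∫ y, ‖ex (s * κ y) - 1‖ ^ (2 * m) * ‖Φ g y‖ ^ 2 / s ^ p ∂ν)
      (𝓝[>] 0) (𝓝 (∫ _ : Y, (0 : ℝ) ∂ν)) := ?_
  · rwa [h2] at hgoal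
  refine tendsto_integral_filter_of_dominated_convergence
    (fun y => (2 * Real.pi) ^ p * 2 ^ (2 * (m : ℝ) - p) * (|κ y| ^ p * ‖Φ g y‖ ^ 2))
    ?_ ?_ (hint.const_mul _) ?_
  · refine Eventually.of_forall fun s => ?_
    have e1 : Measurable fun y => ‖ex (s * κ y) - 1‖ ^ (2 * m) :=
      ((continuous_ex.measurable.comp (hκ.const_mul s)).sub_const 1).norm.pow_const _
    have e2 : AEStronglyMeasurable (fun y => ‖ex (s * κ y) - 1‖ ^ (2 * m) * ‖Φ g y‖ ^ 2) ν :=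
      e1.aestronglyMeasurable.mul ((Lp.aestronglyMeasurable (Φ g)).norm.pow 2)
    simpa [div_eq_mul_inv] using e2.mul_const ((s ^ p)⁻¹)
  · filter_upwards [self_mem_nhdsWithin] with s hs
    have hs : 0 < s := hs
    refine ae_of_all _ fun y => ?_
    rw [Real.norm_of_nonneg (by positivity), div_le_iff₀ (by positivity)]
    have h3 := ex_bound m hp hm (s * κ y)
    rw [abs_mul, abs_of_pos hs] at h3
    have h4 : (2 * Real.pi * (s * |κ y|)) ^ p = (2 * Real.pi) ^ p * (s ^ p * |κ y| ^ p) := by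
      rw [Real.mul_rpow (by positivity) (by positivity), Real.mul_rpow hs.le (abs_nonneg _)]
    rw [h4] at h3
    calc ‖ex (s * κ y) - 1‖ ^ (2 * m) * ‖Φ g y‖ ^ 2
        ≤ ((2 * Real.pi) ^ p * (s ^ p * |κ y| ^ p) * 2 ^ (2 * (m : ℝ) - p)) * ‖Φ g y‖ ^ 2 := by
          gcongr
      _ = _ := by ring
  · refine ae_of_all _ fun y => ?_
    have h5 : Tendsto (fun s : ℝ => (2 * Real.pi * |κ y|) ^ (2 * m) * ‖Φ g y‖ ^ 2 *
        s ^ (2 * (m : ℝ) - p)) (𝓝[>] 0) (𝓝 0) := by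
      have e1 : Tendsto (fun s : ℝ => s ^ (2 * (m : ℝ) - p)) (𝓝[>] 0) (𝓝 0) := by
        have := (Real.continuousAt_rpow_const 0 (2 * (m : ℝ) - p) (Or.inr (by linarith))).tendsto
        rw [Real.zero_rpow (by linarith)] at this
        exact this.mono_left nhdsWithin_le_nhds
      simpa using e1.const_mul ((2 * Real.pi * |κ y|) ^ (2 * m) * ‖Φ g y‖ ^ 2)
    refine squeeze_zero' ?_ ?_ h5
    · filter_upwards [self_mem_nhdsWithin] with s hs
      have hs : 0 < s := hs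
      positivity
    · filter_upwards [self_mem_nhdsWithin] with s hs
      have hs : 0 < s := hs
      rw [div_le_iff₀ (by positivity)]
      have e2 : s ^ (2 * (m : ℝ) - p) * s ^ p = s ^ (2 * m) := by
        rw [← Real.rpow_add hs, ← Real.rpow_natCast]
        congr 1
        push_cast
        ring
      have e3 : ‖ex (s * κ y) - 1‖ ≤ (2 * Real.pi * |κ y|) * s := by
        refine (norm_ex_sub_one _).trans ?_
        rw [abs_mul, abs_of_pos hs]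
        apply le_of_eq; ring
      calc ‖ex (s * κ y) - 1‖ ^ (2 * m) * ‖Φ g y‖ ^ 2
          ≤ ((2 * Real.pi * |κ y|) * s) ^ (2 * m) * ‖Φ g y‖ ^ 2 := by gcongr
        _ = (2 * Real.pi * |κ y|) ^ (2 * m) * ‖Φ g y‖ ^ 2 * s ^ (2 * m) := by rw [mul_pow]; ring
        _ = _ := by rw [← e2]; ring

end Pool.Agent.H737_BLT
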