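import Mathlib
import Pool.Agent.H737_BLT.Mod

set_option autoImplicit false
set_option linter.unusedSectionVars false

/-!
# The coordinate function has an absolutely convergent trigonometric expansion on `[-1/4, 1/4]`
-/

namespace Pool.Agent.H737_BLT

open scoped ENNReal NNReal ComplexConjugate
open Filter Topology MeasureTheory

theorem cos_sum {x : ℝ} (hx : x ∈ Set.Icc (0 : ℝ) 1) :
    HasSum (fun n : ℕ => 1 / (n : ℝ) ^ 2 * Real.cos (2 * Real.pi * n * x))
      (Real.pi ^ 2 * (x ^ 2 - x + 1 / 6)) := by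
  have h := hasSum_one_div_nat_pow_mul_cos (k := 1) one_ne_zero hx
  have h2 : (-1 : ℝ) ^ (1 + 1) * (2 * Real.pi) ^ (2 * 1) / 2 / (2 * 1).factorial *
        (Polynomial.map (algebraMap ℚ ℝ) (Polynomial.bernoulli (2 * 1))).eval x =
      Real.pi ^ 2 * (x ^ 2 - x + 1 / 6) := by
    have h3 : (Polynomial.map (algebraMap ℚ ℝ) (Polynomial.bernoulli 2)).eval x =
        x ^ 2 - x + 1 / 6 := by
      simp only [Polynomial.bernoulli, Finset.sum_range_succ, Finset.sum_range_zero,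
        Polynomial.map_add, Polynomial.map_monomial, Polynomial.eval_add,
        Polynomial.eval_monomial]
      have b2 : bernoulli 2 = 1 / 6 := by
        rw [bernoulli_eq_bernoulli'_of_ne_one (by norm_num), bernoulli'_two]
      simp [bernoulli_one, b2, bernoulli_zero]
      ring
    have h4 : (((2 * 1).factorial : ℕ) : ℝ) = 2 := by norm_num [Nat.factorial]
    rw [h3, h4]
    ring
  rw [h2] at h
  exact h

theorem cos_ex (t : ℝ) : ((Real.cos (2 * Real.pi * t) : ℝ) : ℂ) = (ex t + ex (-t)) / 2 := by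
  unfold ex
  rw [Complex.ofReal_cos, Complex.cos]
  congr 3
  · congr 1
    push_cast
    ring

theorem wiener : ∃ (γ : ℕ → ℂ) (Γ : ℝ), 0 ≤ Γ ∧
    (∀ N : ℕ, ∑ n ∈ Finset.range N, (‖γ n‖ + ‖γ n‖) ≤ Γ) ∧
    ∀ z : ℝ, |z| ≤ 1 / 4 → Tendsto (fun N : ℕ => ∑ n ∈ Finset.range N,
      (γ n * ex (n * z) + conj (γ n) * ex (-(n * z)))) atTop (𝓝 ((z : ℝ) : ℂ)) := by
  set γ : ℕ → ℂ := fun n => ((1 / (2 * Real.pi ^ 2) * (1 / (n : ℝ) ^ 2) : ℝ) : ℂ) *
    (ex (3 * n / 4) - ex (n / 4)) with hγ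
  have hγn : ∀ n, ‖γ n‖ ≤ 1 / Real.pi ^ 2 * (1 / (n : ℝ) ^ 2) := by
    intro n
    rw [hγ]
    simp only
    rw [norm_mul, Complex.norm_real, Real.norm_of_nonneg (by positivity)]
    have : ‖ex (3 * n / 4) - ex (n / 4)‖ ≤ 2 := by
      refine (norm_sub_le _ _).trans ?_
      rw [norm_ex, norm_ex]; norm_num
    calc 1 / (2 * Real.pi ^ 2) * (1 / (n : ℝ) ^ 2) * ‖ex (3 * n / 4) - ex (n / 4)‖
        ≤ 1 / (2 * Real.pi ^ 2) * (1 / (n : ℝ) ^ 2) * 2 := by gcongr
      _ = _ := by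
        have := Real.pi_pos
        field_simp
  have hsum : Summable fun n : ℕ => 1 / Real.pi ^ 2 * (1 / (n : ℝ) ^ 2) :=
    (Real.summable_one_div_nat_pow.2 (by norm_num)).mul_left _
  refine ⟨γ, ∑' n : ℕ, (1 / Real.pi ^ 2 * (1 / (n : ℝ) ^ 2) + 1 / Real.pi ^ 2 * (1 / (n : ℝ) ^ 2)),
    tsum_nonneg fun n => by positivity, fun N => ?_, fun z hz => ?_⟩
  · refine (Finset.sum_le_sum fun n _ => add_le_add (hγn n) (hγn n)).trans ?_
    exact (hsum.add hsum).sum_le_tsum _ fun n _ => by positivity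
  · rw [abs_le] at hz
    have h1 := cos_sum (x := z + 3 / 4) ⟨by linarith, by linarith⟩
    have h2 := cos_sum (x := z + 1 / 4) ⟨by linarith, by linarith⟩
    have h3 := (h1.sub h2).mul_left (1 / Real.pi ^ 2)
    have h4 : 1 / Real.pi ^ 2 * (Real.pi ^ 2 * ((z + 3 / 4) ^ 2 - (z + 3 / 4) + 1 / 6) -
        Real.pi ^ 2 * ((z + 1 / 4) ^ 2 - (z + 1 / 4) + 1 / 6)) = z := by
      have := Real.pi_pos
      field_simp
      ring
    rw [h4] at h3
    have h5 := (Complex.hasSum_ofReal.2 h3).tendsto_sum_nat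
    refine h5.congr fun N => Finset.sum_congr rfl fun n _ => ?_
    have e1 : 2 * Real.pi * n * (z + 3 / 4) = 2 * Real.pi * (n * z + 3 * n / 4) := by ring
    have e2 : 2 * Real.pi * n * (z + 1 / 4) = 2 * Real.pi * (n * z + n / 4) := by ring
    have e3 : conj (γ n) = ((1 / (2 * Real.pi ^ 2) * (1 / (n : ℝ) ^ 2) : ℝ) : ℂ) *
        (ex (-(3 * n / 4)) - ex (-(n / 4))) := by
      have hc : ∀ t : ℝ, conj (ex t) = ex (-t) := by
        intro t
        unfold ex
        rw [← Complex.exp_conj]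
        congr 1
        rw [map_mul, Complex.conj_ofReal, Complex.conj_I]
        push_cast
        ring
      rw [hγ]
      simp only [map_mul, map_sub, Complex.conj_ofReal, hc]
    rw [e3, e1, e2, Complex.ofReal_mul, Complex.ofReal_sub, Complex.ofReal_mul, Complex.ofReal_mul,
      cos_ex, cos_ex]
    rw [show -(n * z + 3 * n / 4) = -(n * z) + -(3 * n / 4) by ring,
      show -(n * z + n / 4) = -(n * z) + -(n / 4) by ring]
    simp only [ex_add, hγ]
    have hp : (Real.pi : ℂ) ≠ 0 := by exact_mod_cast Real.pi_ne_zero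
    push_cast
    field_simp
    ring

end Pool.Agent.H737_BLT
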