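import Mathlib
import Pool.Agent.H737_BLT.Wiener

set_option autoImplicit false
set_option linter.unusedSectionVars false

/-!
# Band-limited vectors: the multipliers tend to one uniformly
-/

namespace Pool.Agent.H737_BLT

open scoped ENNReal NNReal ComplexConjugate
open Filter Topology MeasureTheory

/-- dominated convergence in `L²` -/
theorem L2_tendsto {Y : Type*} [MeasurableSpace Y] {ν : Measure Y} (F : ℕ → Lp ℂ 2 ν)
    (F' G : Lp ℂ 2 ν) (M : ℝ)
    (hb : ∀ n, ∀ᵐ y ∂ν, ‖F n y‖ ≤ M * ‖G y‖)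
    (hlim : ∀ᵐ y ∂ν, Tendsto (fun n => F n y) atTop (𝓝 (F' y))) : Tendsto F atTop (𝓝 F') := by
  rw [tendsto_iff_norm_sub_tendsto_zero]
  have hb' : ∀ᵐ y ∂ν, ∀ n, ‖F n y‖ ≤ M * ‖G y‖ := ae_all_iff.2 hb
  have h1 : Tendsto (fun n => ∫ y, ‖F n y - F' y‖ ^ 2 ∂ν) atTop (𝓝 (∫ _ : Y, (0 : ℝ) ∂ν)) := by
    refine tendsto_integral_of_dominated_convergence (fun y => (2 * M) ^ 2 * ‖G y‖ ^ 2)
      (fun n => ?_) ?_ (fun n => ?_) ?_
    · exact ((Lp.aestronglyMeasurable (F n)).sub (Lp.aestronglyMeasurable F')).norm.pow 2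
    · exact ((Lp.memLp G).norm.integrable_sq).const_mul _
    · filter_upwards [hb', hlim] with y h1 h2
      have h3 : ‖F' y‖ ≤ M * ‖G y‖ := le_of_tendsto h2.norm (Eventually.of_forall h1)
      rw [Real.norm_of_nonneg (by positivity), ← mul_pow]
      gcongr
      calc ‖F n y - F' y‖ ≤ ‖F n y‖ + ‖F' y‖ := norm_sub_le _ _
        _ ≤ M * ‖G y‖ + M * ‖G y‖ := add_le_add (h1 n) h3
        _ = 2 * M * ‖G y‖ := by ring
    · filter_upwards [hlim] with y h2
      have := ((h2.sub_const (F' y)).norm).pow 2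
      simpa using this
  simp only [integral_zero] at h1
  have h2 : Tendsto (fun n => ‖F n - F'‖ ^ 2) atTop (𝓝 0) := by
    refine h1.congr fun n => ?_
    rw [nsq']
    refine integral_congr_ae ?_
    filter_upwards [Lp.coeFn_sub (F n) F'] with y hy
    rw [hy, Pi.sub_apply]
  have h3 := (Real.continuous_sqrt.tendsto 0).comp h2
  rw [Real.sqrt_zero] at h3
  refine h3.congr fun n => ?_
  simp [Real.sqrt_sq (norm_nonneg _)]

namespace Sys

variable {X : Type*} [MeasurableSpace X] [AddCommGroup X] {μ : Measure X}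
  {K : Type*} [AddCommGroup K] {H : Type*} [NormedAddCommGroup H] [InnerProductSpace ℂ H]
variable (S : Sys X μ K H)
variable [MeasurableAdd X] [μ.IsAddRightInvariant] [IsProbabilityMeasure μ]

/-- the coefficient function of `f` is bounded by `B` -/
def Bd (f : H) (B : ℝ) : Prop := ∀ᵐ θ ∂μ, ‖S.T.symm f θ‖ ≤ B

variable {S}

theorem Bd.g : S.Bd S.g 1 := by
  filter_upwards [S.c_one] with θ h
  rw [h, norm_one]

theorem Bd.add {f f' : H} {B B' : ℝ} (h : S.Bd f B) (h' : S.Bd f' B') : S.Bd (f + f') (B + B') := by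
  have e : S.T.symm (f + f') = S.T.symm f + S.T.symm f' := map_add _ _ _
  unfold Bd
  rw [e]
  filter_upwards [h, h', Lp.coeFn_add (S.T.symm f) (S.T.symm f')] with θ h1 h2 h3
  rw [h3, Pi.add_apply]
  exact (norm_add_le _ _).trans (add_le_add h1 h2)

theorem Bd.smul {f : H} {B : ℝ} (h : S.Bd f B) (z : ℂ) : S.Bd (z • f) (‖z‖ * B) := by
  have e : S.T.symm (z • f) = z • S.T.symm f := map_smul _ _ _
  unfold Bd
  rw [e]
  filter_upwards [h, Lp.coeFn_smul z (S.T.symm f)] with θ h1 h3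
  rw [h3, Pi.smul_apply, norm_smul]
  gcongr

theorem Bd.zero : S.Bd (0 : H) 0 := by
  unfold Bd
  rw [map_zero]
  filter_upwards [Lp.coeFn_zero ℂ 2 μ] with θ h
  rw [h]; simp

theorem Bd.mono {f : H} {B B' : ℝ} (h : S.Bd f B) (hB : B ≤ B') : S.Bd f B' := by
  filter_upwards [h] with θ h1
  exact h1.trans hB

theorem Bd.sum {f : ℕ → H} {B : ℕ → ℝ} (N : ℕ) (h : ∀ n, S.Bd (f n) (B n)) :
    S.Bd (∑ n ∈ Finset.range N, f n) (∑ n ∈ Finset.range N, B n) := by
  induction N with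
  | zero => simpa using Bd.zero
  | succ N ih =>
    rw [Finset.sum_range_succ, Finset.sum_range_succ]
    exact ih.add (h N)

theorem Bd.cov {f : H} {B : ℝ} (h : S.Bd f B) {A : H ≃ₗᵢ[ℂ] H} {a : X} (hA : S.Cov A a) :
    S.Bd (A f) (B * S.C) := by
  have hmp : MeasurePreserving (fun x : X => x + a) μ μ := measurePreserving_add_right μ a
  filter_upwards [S.form hA f, S.c_bound hA, hmp.quasiMeasurePreserving.ae h] with θ h1 h2 h3
  rw [h1, norm_mul]
  exact mul_le_mul h3 h2 (norm_nonneg _) ((norm_nonneg _).trans h3)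

theorem Bd.lim {f : ℕ → H} {f' : H} {B : ℝ} (h : ∀ n, S.Bd (f n) B)
    (hf : Tendsto f atTop (𝓝 f')) : S.Bd f' B := by
  have h1 : Tendsto (fun n => S.T.symm (f n)) atTop (𝓝 (S.T.symm f')) :=
    (S.T.symm.continuous.tendsto f').comp hf
  obtain ⟨ns, _, hns2⟩ := (tendstoInMeasure_of_tendsto_Lp h1).exists_seq_tendsto_ae
  have hall : ∀ᵐ θ ∂μ, ∀ n, ‖S.T.symm (f n) θ‖ ≤ B := ae_all_iff.2 h
  filter_upwards [hns2, hall] with θ h2 h3
  exact le_of_tendsto h2.norm (Eventually.of_forall fun i => h3 (ns i))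

variable {Y : Type*} [MeasurableSpace Y] {ν : Measure Y}

theorem coe_sum (N : ℕ) (F : ℕ → Lp ℂ 2 ν) :
    ((∑ n ∈ Finset.range N, F n : Lp ℂ 2 ν) : Y → ℂ) =ᵐ[ν] fun y => ∑ n ∈ Finset.range N, F n y := by
  induction N with
  | zero =>
    simp only [Finset.range_zero, Finset.sum_empty]
    filter_upwards [Lp.coeFn_zero ℂ 2 ν] with y hy
    rw [hy]; rfl
  | succ N ih =>
    rw [Finset.sum_range_succ]
    filter_upwards [ih, Lp.coeFn_add (∑ n ∈ Finset.range N, F n) (F N)] with y h1 h2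
    rw [h2, Pi.add_apply, h1, Finset.sum_range_succ]

/-- multiplication by the coordinate function -/
theorem Bd.mulκ {Φ : H ≃ₗᵢ[ℂ] Lp ℂ 2 ν} {V : ℝ → H ≃ₗᵢ[ℂ] H} {a : ℝ → X}
    (hcov : ∀ s, S.Cov (V s) (a s)) {κ : Y → ℝ}
    (hV : ∀ s x, (Φ (V s x) : Y → ℂ) =ᵐ[ν] fun y => ex (s * κ y) * Φ x y)
    {γ : ℕ → ℂ} {Γ : ℝ} 
    (hΓ2 : ∀ N : ℕ, ∑ n ∈ Finset.range N, (‖γ n‖ + ‖γ n‖) ≤ Γ)
    (hγ : ∀ z : ℝ, |z| ≤ 1 / 4 → Tendsto (fun N : ℕ => ∑ n ∈ Finset.range N,
      (γ n * ex (n * z) + conj (γ n) * ex (-(n * z)))) atTop (𝓝 ((z : ℝ) : ℂ)))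
    {δ : ℝ} {f f' : H} (hs : ∀ᵐ y ∂ν, |δ * κ y| ≤ 1 / 4 ∨ Φ f y = 0)
    (hf' : (Φ f' : Y → ℂ) =ᵐ[ν] fun y => ((δ * κ y : ℝ) : ℂ) * Φ f y) {B : ℝ} (hB : 0 ≤ B)
    (h : S.Bd f B) : S.Bd f' (Γ * (B * S.C)) := by
  set P : ℕ → H := fun N => ∑ n ∈ Finset.range N,
    (γ n • V (n * δ) f + conj (γ n) • V (-(n * δ)) f) with hP
  have hPb : ∀ N, S.Bd (P N) (Γ * (B * S.C)) := by
    intro N
    have h1 := Bd.sum N (fun n => ((h.cov (hcov (n * δ))).smul (γ n)).add
      ((h.cov (hcov (-(n * δ)))).smul (conj (γ n))))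
    refine h1.mono ?_
    have h2 : ∀ n, ‖γ n‖ * (B * S.C) + ‖conj (γ n)‖ * (B * S.C) = (‖γ n‖ + ‖γ n‖) * (B * S.C) := by
      intro n
      rw [RCLike.norm_conj]; ring
    simp only [h2]
    rw [← Finset.sum_mul]
    exact mul_le_mul_of_nonneg_right (hΓ2 N) (mul_nonneg hB S.C_pos.le)
  have hcoe : ∀ N, (Φ (P N) : Y → ℂ) =ᵐ[ν] fun y => (∑ n ∈ Finset.range N,
      (γ n * ex (n * (δ * κ y)) + conj (γ n) * ex (-(n * (δ * κ y))))) * Φ f y := by
    intro N
    have e1 : Φ (P N) = ∑ n ∈ Finset.range N,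
        (γ n • Φ (V (n * δ) f) + conj (γ n) • Φ (V (-(n * δ)) f)) := by
      simp only [hP, map_sum, map_add, map_smul]
    rw [e1]
    have e2 : ∀ᵐ y ∂ν, ∀ n : ℕ,
        ((γ n • Φ (V (n * δ) f) + conj (γ n) • Φ (V (-(n * δ)) f) : Lp ℂ 2 ν) : Y → ℂ) y =
        (γ n * ex (n * (δ * κ y)) + conj (γ n) * ex (-(n * (δ * κ y)))) * Φ f y := by
      rw [ae_all_iff]
      intro n
      filter_upwards [Lp.coeFn_add (γ n • Φ (V (n * δ) f)) (conj (γ n) • Φ (V (-(n * δ)) f)),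
        Lp.coeFn_smul (γ n) (Φ (V (n * δ) f)), Lp.coeFn_smul (conj (γ n)) (Φ (V (-(n * δ)) f)),
        hV (n * δ) f, hV (-(n * δ)) f] with y a1 a2 a3 a4 a5
      rw [a1, Pi.add_apply, a2, a3, Pi.smul_apply, Pi.smul_apply, a4, a5, smul_eq_mul, smul_eq_mul,
        mul_assoc (n : ℝ) δ (κ y), neg_mul, mul_assoc (n : ℝ) δ (κ y)]
      ring
    filter_upwards [coe_sum N (fun n => γ n • Φ (V (n * δ) f) +
      conj (γ n) • Φ (V (-(n * δ)) f)), e2] with y a1 a2
    rw [a1, Finset.sum_mul]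
    exact Finset.sum_congr rfl fun n _ => a2 n
  refine Bd.lim hPb ?_
  have hΦP : Tendsto (fun N => Φ (P N)) atTop (𝓝 (Φ f')) := by
    refine L2_tendsto _ _ (Φ f) Γ (fun N => ?_) ?_
    · filter_upwards [hcoe N] with y a1
      rw [a1, norm_mul]
      gcongr
      refine (norm_sum_le _ _).trans ((Finset.sum_le_sum fun n _ => ?_).trans (hΓ2 N))
      refine (norm_add_le _ _).trans ?_
      rw [norm_mul, norm_mul, norm_ex, norm_ex, mul_one, mul_one, RCLike.norm_conj]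
    · filter_upwards [ae_all_iff.2 hcoe, hs, hf'] with y a1 a2 a3
      simp only [a1]
      rw [a3]
      rcases a2 with a2 | a2
      · exact (hγ _ a2).mul_const _
      · rw [a2]
        simp
  have := (Φ.symm.continuous.tendsto (Φ f')).comp hΦP
  simpa [Function.comp_def] using this

/-- **Band-limited vectors.** -/
theorem band_limited {Φ : H ≃ₗᵢ[ℂ] Lp ℂ 2 ν} {V : ℝ → H ≃ₗᵢ[ℂ] H} {a : ℝ → X}
    (hcov : ∀ s, S.Cov (V s) (a s)) {κ : Y → ℝ} (hκ : Measurable κ)
    (hV : ∀ s x, (Φ (V s x) : Y → ℂ) =ᵐ[ν] fun y => ex (s * κ y) * Φ x y)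
    {R : ℝ} (hR : 0 < R) (hsupp : ∀ᵐ y ∂ν, |κ y| ≤ R ∨ Φ S.g y = 0) :
    ∃ s₀ : ℝ, 0 < s₀ ∧ ∀ s, 0 < s → s < s₀ → μ.real (S.Bad (V s)) = 0 := by
  obtain ⟨γ, Γ, hΓ, hΓ2, hγ⟩ := wiener
  set δ : ℝ := 1 / (4 * R) with hδ
  have hδ0 : 0 < δ := by positivity
  have hδR : ∀ t : ℝ, |t| ≤ R → |δ * t| ≤ 1 / 4 := by
    intro t ht
    rw [abs_mul, abs_of_pos hδ0]
    calc δ * |t| ≤ δ * R := by gcongr
      _ = 1 / 4 := by rw [hδ]; field_simp
  set q : ℝ := Γ * S.C with hq
  have hq0 : 0 ≤ q := mul_nonneg hΓ S.C_pos.le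
  -- the iterates
  have hiter : ∀ m : ℕ, ∃ f : H, ((Φ f : Y → ℂ) =ᵐ[ν] fun y => ((δ * κ y : ℝ) : ℂ) ^ m * Φ S.g y) ∧
      S.Bd f (q ^ m) := by
    intro m
    induction m with
    | zero =>
      refine ⟨S.g, ?_, by simpa using Bd.g⟩
      filter_upwards with y
      simp
    | succ m ih =>
      obtain ⟨f, hf, hfb⟩ := ih
      have hs : ∀ᵐ y ∂ν, |δ * κ y| ≤ 1 / 4 ∨ Φ f y = 0 := by
        filter_upwards [hsupp, hf] with y h1 h2
        rcases h1 with h1 | h1
        · exact Or.inl (hδR _ h1)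
        · right
          rw [h2, h1, mul_zero]
      have hmem : MemLp (fun y => ((δ * κ y : ℝ) : ℂ) * Φ f y) 2 ν := by
        refine MemLp.of_le (Lp.memLp (Φ f)) ?_ ?_
        · exact ((Complex.measurable_ofReal.comp (hκ.const_mul δ)).aestronglyMeasurable).mul
            (Lp.aestronglyMeasurable _)
        · filter_upwards [hs] with y h1
          rcases h1 with h1 | h1
          · rw [norm_mul, Complex.norm_real, Real.norm_eq_abs]
            nlinarith [norm_nonneg (Φ f y)]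
          · rw [h1]; simp
      set f' : H := Φ.symm (hmem.toLp _) with hf'
      have hf'2 : (Φ f' : Y → ℂ) =ᵐ[ν] fun y => ((δ * κ y : ℝ) : ℂ) * Φ f y := by
        rw [hf', LinearIsometryEquiv.apply_symm_apply]
        exact hmem.coeFn_toLp
      refine ⟨f', ?_, ?_⟩
      · filter_upwards [hf'2, hf] with y h1 h2
        rw [h1, h2, pow_succ]
        ring
      · have := Bd.mulκ hcov hV hΓ2 hγ hs hf'2 (pow_nonneg hq0 m) hfb
        refine this.mono (le_of_eq ?_)
        rw [hq, pow_succ]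
        ring
  choose f hf hfb using hiter
  -- the exponential series
  have hexp : ∀ s : ℝ, S.Bd (V s S.g - S.g) (Real.exp (2 * Real.pi * |s| / δ * q) - 1) := by
    intro s
    set t : ℂ := ((2 * Real.pi * s / δ : ℝ) : ℂ) * Complex.I with ht
    have htn : ‖t‖ = 2 * Real.pi * |s| / δ := by
      rw [ht, norm_mul, Complex.norm_I, mul_one, Complex.norm_real, Real.norm_eq_abs, abs_div,
        abs_mul, abs_mul, abs_of_pos hδ0, abs_of_pos Real.pi_pos]
      norm_num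
    set P : ℕ → H := fun N => ∑ m ∈ Finset.range N, (t ^ (m + 1) / ((m + 1).factorial : ℂ)) • f (m + 1)
      with hP
    have hPb : ∀ N, S.Bd (P N) (Real.exp (2 * Real.pi * |s| / δ * q) - 1) := by
      intro N
      have h1 := Bd.sum N (fun m => (hfb (m + 1)).smul (t ^ (m + 1) / ((m + 1).factorial : ℂ)))
      refine h1.mono ?_
      have h2 : ∀ m : ℕ, ‖t ^ (m + 1) / ((m + 1).factorial : ℂ)‖ * q ^ (m + 1) =
          (2 * Real.pi * |s| / δ * q) ^ (m + 1) / ((m + 1).factorial : ℝ) := by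
        intro m
        rw [norm_div, norm_pow, htn, Complex.norm_natCast, mul_pow]
        ring
      simp only [h2]
      have h3 : ∑ m ∈ Finset.range (N + 1), (2 * Real.pi * |s| / δ * q) ^ m / (m.factorial : ℝ) ≤
          Real.exp (2 * Real.pi * |s| / δ * q) :=
        Real.sum_le_exp_of_nonneg (by positivity) (N + 1)
      rw [Finset.sum_range_succ'] at h3
      simp only [pow_zero, Nat.factorial_zero, Nat.cast_one, div_one] at h3
      linarith
    refine Bd.lim hPb ?_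
    have hcoe : ∀ N, (Φ (P N) : Y → ℂ) =ᵐ[ν] fun y => (∑ m ∈ Finset.range N,
        ((t * ((δ * κ y : ℝ) : ℂ)) ^ (m + 1) / ((m + 1).factorial : ℂ))) * Φ S.g y := by
      intro N
      have e1 : Φ (P N) = ∑ m ∈ Finset.range N, (t ^ (m + 1) / ((m + 1).factorial : ℂ)) •
          Φ (f (m + 1)) := by
        simp only [hP, map_sum, map_smul]
      rw [e1]
      have e2 : ∀ᵐ y ∂ν, ∀ m : ℕ,
          (((t ^ (m + 1) / ((m + 1).factorial : ℂ)) • Φ (f (m + 1)) : Lp ℂ 2 ν) : Y → ℂ) y =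
          ((t * ((δ * κ y : ℝ) : ℂ)) ^ (m + 1) / ((m + 1).factorial : ℂ)) * Φ S.g y := by
        rw [ae_all_iff]
        intro m
        filter_upwards [Lp.coeFn_smul (t ^ (m + 1) / ((m + 1).factorial : ℂ)) (Φ (f (m + 1))),
          hf (m + 1)] with y a1 a2
        rw [a1, Pi.smul_apply, a2, smul_eq_mul, mul_pow]
        ring
      filter_upwards [coe_sum N (fun m => (t ^ (m + 1) / ((m + 1).factorial : ℂ)) •
        Φ (f (m + 1))), e2] with y a1 a2
      rw [a1, Finset.sum_mul]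
      exact Finset.sum_congr rfl fun n _ => a2 n
    have hΦP : Tendsto (fun N => Φ (P N)) atTop (𝓝 (Φ (V s S.g - S.g))) := by
      refine L2_tendsto _ _ (Φ S.g) (Real.exp (‖t‖ * (1 / 4))) (fun N => ?_) ?_
      · filter_upwards [hcoe N, hsupp] with y a1 a2
        rw [a1, norm_mul]
        rcases a2 with a2 | a2
        · gcongr
          have h4 := hδR _ a2
          refine (norm_sum_le _ _).trans ?_
          have h5 : ∀ m : ℕ, ‖(t * ((δ * κ y : ℝ) : ℂ)) ^ (m + 1) / ((m + 1).factorial : ℂ)‖ ≤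
              (‖t‖ * (1 / 4)) ^ (m + 1) / ((m + 1).factorial : ℝ) := by
            intro m
            rw [norm_div, norm_pow, Complex.norm_natCast, norm_mul, Complex.norm_real,
              Real.norm_eq_abs]
            gcongr
          refine (Finset.sum_le_sum fun m _ => h5 m).trans ?_
          have h3 : ∑ m ∈ Finset.range (N + 1), (‖t‖ * (1 / 4)) ^ m / (m.factorial : ℝ) ≤
              Real.exp (‖t‖ * (1 / 4)) := Real.sum_le_exp_of_nonneg (by positivity) (N + 1)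
          rw [Finset.sum_range_succ'] at h3
          simp only [pow_zero, Nat.factorial_zero, Nat.cast_one, div_one] at h3
          linarith
        · rw [a2]; simp
      · filter_upwards [ae_all_iff.2 hcoe, Lp.coeFn_sub (Φ (V s S.g)) (Φ S.g), hV s S.g]
          with y a1 a2 a3
        simp only [a1]
        rw [map_sub, a2, Pi.sub_apply, a3]
        have h6 : ex (s * κ y) * Φ S.g y - Φ S.g y = (ex (s * κ y) - 1) * Φ S.g y := by ring
        rw [h6]
        refine Tendsto.mul_const _ ?_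
        have h7 : ex (s * κ y) = Complex.exp (t * ((δ * κ y : ℝ) : ℂ)) := by
          unfold ex
          congr 1
          rw [ht]
          have : (δ : ℂ) ≠ 0 := by exact_mod_cast hδ0.ne'
          push_cast
          field_simp
        have h8 : Tendsto (fun N : ℕ => ∑ m ∈ Finset.range N,
            ((t * ((δ * κ y : ℝ) : ℂ)) ^ m / (m.factorial : ℂ))) atTop
            (𝓝 (Complex.exp (t * ((δ * κ y : ℝ) : ℂ)))) := by
          have := (NormedSpace.expSeries_div_hasSum_exp (t * ((δ * κ y : ℝ) : ℂ))).tendsto_sum_nat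
          rwa [← Complex.exp_eq_exp_ℂ] at this
        rw [h7]
        have h9 := ((tendsto_add_atTop_iff_nat 1).2 h8).sub_const 1
        refine h9.congr fun N => ?_
        rw [Finset.sum_range_succ']
        simp
    have := (Φ.symm.continuous.tendsto _).comp hΦP
    simpa [Function.comp_def] using this
  -- conclusion
  have hcont : Tendsto (fun s : ℝ => Real.exp (2 * Real.pi * |s| / δ * q) - 1) (𝓝 0) (𝓝 0) := by
    have h1 : Continuous fun s : ℝ => Real.exp (2 * Real.pi * |s| / δ * q) - 1 := by fun_prop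
    have := h1.tendsto 0
    simpa using this
  have hev : ∀ᶠ s in 𝓝 (0 : ℝ), Real.exp (2 * Real.pi * |s| / δ * q) - 1 < 1 / 2 :=
    hcont.eventually (gt_mem_nhds (by norm_num))
  obtain ⟨s₀, hs₀, hs₀2⟩ := Metric.eventually_nhds_iff.1 hev
  refine ⟨s₀, hs₀, fun s hs1 hs2 => ?_⟩
  have h1 := hs₀2 (y := s) (by rw [Real.dist_eq, sub_zero, abs_of_pos hs1]; exact hs2)
  have h2 : μ (S.Bad (V s)) = 0 := by
    rw [measure_eq_zero_iff_ae_notMem]
    have e : S.T.symm (V s S.g - S.g) = S.T.symm (V s S.g) - S.T.symm S.g := map_sub _ _ _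
    have h3 := hexp s
    unfold Bd at h3
    rw [e] at h3
    filter_upwards [h3, Lp.coeFn_sub (S.T.symm (V s S.g)) (S.T.symm S.g), S.c_one] with θ a1 a2 a3
    rw [a2, Pi.sub_apply, a3] at a1
    simp only [Bad, Set.mem_ofPred_eq, not_le]
    exact lt_of_le_of_lt a1 h1
  rw [Measure.real, h2, ENNReal.toReal_zero]

end Sys

end Pool.Agent.H737_BLT
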