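import Mathlib
import Pool.Agent.H737_BLT.Band

set_option autoImplicit false
set_option linter.unusedSectionVars false

/-!
# The abstract nonsymmetric Balian-Low theorem
-/

namespace Pool.Agent.H737_BLT

open scoped ENNReal NNReal ComplexConjugate
open Filter Topology MeasureTheory

namespace Sys

variable {X : Type*} [MeasurableSpace X] [AddCommGroup X] {μ : Measure X}
  {K : Type*} [AddCommGroup K] {H : Type*} [NormedAddCommGroup H] [InnerProductSpace ℂ H]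
variable (S : Sys X μ K H)
variable [MeasurableAdd X] [μ.IsAddRightInvariant] [IsProbabilityMeasure μ]
variable {Y Z : Type*} [MeasurableSpace Y] {ν : Measure Y} [MeasurableSpace Z] {ν' : Measure Z}

theorem tendsto_rpow_right {p : ℝ} (hp : 0 < p) :
    Tendsto (fun s : ℝ => s ^ p) (𝓝[>] 0) (𝓝[>] 0) := by
  rw [tendsto_nhdsWithin_iff]
  constructor
  · have := (Real.continuousAt_rpow_const 0 p (Or.inr hp.le)).tendsto
    rw [Real.zero_rpow hp.ne'] at this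
    exact this.mono_left nhdsWithin_le_nhds
  · filter_upwards [self_mem_nhdsWithin] with s hs
    exact Real.rpow_pos_of_pos hs p

variable {S}

theorem blt_pq {P Q : ℝ → H ≃ₗᵢ[ℂ] H} {a b : ℝ → X}
    (hP : ∀ s, S.Cov (P s) (a s)) (hQ : ∀ s, S.Cov (Q s) (b s))
    (hrel : ∀ h t : ℝ, Q t (P h S.g) = ex (h * t) • P h (Q t S.g))
    (Φ : H ≃ₗᵢ[ℂ] Lp ℂ 2 ν) (κ : Y → ℝ) (hκ : Measurable κ)
    (hΦ : ∀ s x, (Φ (P s x) : Y → ℂ) =ᵐ[ν] fun y => ex (s * κ y) * Φ x y)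
    (Ψ : H ≃ₗᵢ[ℂ] Lp ℂ 2 ν') (κ' : Z → ℝ) (hκ' : Measurable κ')
    (hΨ : ∀ s x, (Ψ (Q s x) : Z → ℂ) =ᵐ[ν'] fun y => ex (s * κ' y) * Ψ x y)
    {p q : ℝ} (hp : 1 < p) (hq : 1 < q) (hpq : 1 / p + 1 / q = 1)
    (h1 : Integrable (fun y => |κ y| ^ p * ‖Φ S.g y‖ ^ 2) ν)
    (h2 : Integrable (fun y => |κ' y| ^ q * ‖Ψ S.g y‖ ^ 2) ν') : False := by
  have hp0 : 0 < p := by linarith
  have hq0 : 0 < q := by linarith
  obtain ⟨m, hm⟩ := exists_nat_gt (max p q)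
  have hmp : p < 2 * m := by
    have := le_max_left p q
    have h0 : (0 : ℝ) ≤ m := Nat.cast_nonneg m
    linarith
  have hmq : q < 2 * m := by
    have := le_max_right p q
    have h0 : (0 : ℝ) ≤ m := Nat.cast_nonneg m
    linarith
  obtain ⟨W, hW, hbad⟩ := S.bad_bound m
  have e1 := moment_small Φ P κ hκ hΦ m hp0 hmp S.g h1
  have e2 := moment_small Ψ Q κ' hκ' hΨ m hq0 hmq S.g h2
  have e3 := e1.comp (tendsto_rpow_right (p := 1 / p) (by positivity))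
  have e4 := e2.comp (tendsto_rpow_right (p := 1 / q) (by positivity))
  have e5 := (e3.add e4).const_mul (6 * W)
  simp only [Function.comp_def, add_zero, mul_zero] at e5
  have e6 := e5.eventually (gt_mem_nhds (zero_lt_one : (0 : ℝ) < 1))
  have e7 : ∀ᶠ s in 𝓝[>] (0 : ℝ), s < 1 / 2 :=
    (gt_mem_nhds (by norm_num : (0 : ℝ) < 1 / 2)).filter_mono nhdsWithin_le_nhds
  obtain ⟨ε, h6, h7, h8⟩ := (e6.and (e7.and self_mem_nhdsWithin)).exists
  have hε : 0 < ε := h8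
  set h : ℝ := ε ^ (1 / p) with hh
  set t : ℝ := ε ^ (1 / q) with ht
  have hht : h * t = ε := by
    rw [hh, ht, ← Real.rpow_add hε, hpq, Real.rpow_one]
  have hhp : h ^ p = ε := by
    rw [hh, ← Real.rpow_mul hε.le]
    have : 1 / p * p = 1 := by field_simp
    rw [this, Real.rpow_one]
  have htq : t ^ q = ε := by
    rw [ht, ← Real.rpow_mul hε.le]
    have : 1 / q * q = 1 := by field_simp
    rw [this, Real.rpow_one]
  rw [hhp, htq] at h6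
  have hkey := S.key (hQ t) (hP h) (s := ε) hε h7 (by
    have := hrel h t
    rw [hht] at this
    exact this)
  have b1 := hbad (Q t) (b t) (hQ t)
  have b2 := hbad (P h) (a h) (hP h)
  have h9 : 6 * W * (‖dif (P h) m S.g‖ ^ 2 / ε + ‖dif (Q t) m S.g‖ ^ 2 / ε) =
      (6 * W * (‖dif (P h) m S.g‖ ^ 2 + ‖dif (Q t) m S.g‖ ^ 2)) / ε := by
    field_simp
  rw [h9, div_lt_one hε] at h6
  nlinarith

theorem blt_band {P Q : ℝ → H ≃ₗᵢ[ℂ] H} {a b : ℝ → X}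
    (hP : ∀ s, S.Cov (P s) (a s)) (hQ : ∀ s, S.Cov (Q s) (b s))
    (hrel : ∀ h t : ℝ, 0 < h → 0 < t → h * t < 1 / 2 →
      h * t ≤ 6 * (μ.real (S.Bad (P h)) + μ.real (S.Bad (Q t))))
    (Φ : H ≃ₗᵢ[ℂ] Lp ℂ 2 ν) (κ : Y → ℝ) (hκ : Measurable κ)
    (hΦ : ∀ s x, (Φ (P s x) : Y → ℂ) =ᵐ[ν] fun y => ex (s * κ y) * Φ x y)
    (Ψ : H ≃ₗᵢ[ℂ] Lp ℂ 2 ν') (κ' : Z → ℝ) (hκ' : Measurable κ')
    (hΨ : ∀ s x, (Ψ (Q s x) : Z → ℂ) =ᵐ[ν'] fun y => ex (s * κ' y) * Ψ x y)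
    {R : ℝ} (hR : 0 < R) (h1 : ∀ᵐ y ∂ν, |κ y| ≤ R ∨ Φ S.g y = 0)
    (h2 : Integrable (fun y => |κ' y| * ‖Ψ S.g y‖ ^ 2) ν') : False := by
  obtain ⟨s₀, hs₀, hband⟩ := band_limited hP hκ hΦ hR h1
  obtain ⟨W, hW, hbad⟩ := S.bad_bound 1
  set h : ℝ := min (s₀ / 2) (1 / 2) with hh
  have hh0 : 0 < h := by positivity
  have hh1 : h < s₀ := (min_le_left _ _).trans_lt (by linarith)
  have hh2 : h ≤ 1 / 2 := min_le_right _ _
  have e2 := moment_small Ψ Q κ' hκ' hΨ 1 (p := 1) one_pos (by norm_num) S.g (by simpa using h2)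
  have e5 := e2.const_mul (6 * W)
  simp only [mul_zero] at e5
  have e6 := e5.eventually (gt_mem_nhds hh0)
  have e7 : ∀ᶠ s in 𝓝[>] (0 : ℝ), s < 1 :=
    (gt_mem_nhds (by norm_num : (0 : ℝ) < 1)).filter_mono nhdsWithin_le_nhds
  obtain ⟨t, h6, h7, h8⟩ := (e6.and (e7.and self_mem_nhdsWithin)).exists
  have ht : 0 < t := h8
  have h9 := hrel h t hh0 ht (by nlinarith)
  rw [hband h hh0 hh1, zero_add] at h9
  have b1 := hbad (Q t) (b t) (hQ t)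
  rw [Real.rpow_one] at h6
  have h10 : 6 * W * (‖dif (Q t) 1 S.g‖ ^ 2 / t) = (6 * W * ‖dif (Q t) 1 S.g‖ ^ 2) / t := by
    field_simp
  rw [h10, div_lt_iff₀ ht] at h6
  nlinarith

end Sys

end Pool.Agent.H737_BLT
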