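import Mathlib

set_option autoImplicit false

/-!
# Time-frequency shifts on `L²(E)`
-/

namespace Pool.Agent.H737_BLT

open scoped ENNReal NNReal ComplexConjugate SchwartzMap
open Filter Topology MeasureTheory FourierTransform

variable {E : Type*} [NormedAddCommGroup E] [InnerProductSpace ℝ E]

/-- the character `x ↦ e^{2πi ⟨b, x⟩}` -/
noncomputable def chr (b x : E) : ℂ :=
  Complex.exp (2 * (Real.pi : ℂ) * Complex.I * ((inner ℝ b x : ℝ) : ℂ))

theorem norm_chr (b x : E) : ‖chr b x‖ = 1 := by
  unfold chr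
  have : 2 * (Real.pi : ℂ) * Complex.I * ((inner ℝ b x : ℝ) : ℂ) =
      ((2 * Real.pi * inner ℝ b x : ℝ) : ℂ) * Complex.I := by push_cast; ring
  rw [this, Complex.norm_exp_ofReal_mul_I]

theorem chr_add_left (b b' x : E) : chr (b + b') x = chr b x * chr b' x := by
  unfold chr
  rw [← Complex.exp_add]
  congr 1
  rw [inner_add_left]
  push_cast
  ring

theorem chr_add_right (b x x' : E) : chr b (x + x') = chr b x * chr b x' := by
  unfold chr
  rw [← Complex.exp_add]
  congr 1
  rw [inner_add_right]
  push_cast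
  ring

theorem chr_zero_left (x : E) : chr 0 x = 1 := by simp [chr]
theorem chr_zero_right (x : E) : chr x 0 = 1 := by simp [chr]

theorem chr_neg_right (b x : E) : chr b (-x) * chr b x = 1 := by
  rw [← chr_add_right, neg_add_cancel, chr_zero_right]

theorem chr_comm (b x : E) : chr b x = chr x b := by
  unfold chr
  rw [real_inner_comm]

theorem continuous_chr (b : E) : Continuous (chr b) := by
  unfold chr
  fun_prop

variable [FiniteDimensional ℝ E] [MeasurableSpace E] [BorelSpace E]

theorem mp_sub (a : E) : MeasurePreserving (fun x : E => x - a) volume volume :=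
  measurePreserving_sub_right volume a

theorem memLp_shift (a b : E) {f : E → ℂ} (hf : MemLp f 2 volume) :
    MemLp (fun x => chr b x * f (x - a)) 2 volume := by
  have h1 : MemLp (fun x => f (x - a)) 2 volume := hf.comp_measurePreserving (mp_sub a)
  have h2 : AEStronglyMeasurable (fun x => chr b x * f (x - a)) volume :=
    (continuous_chr b).aestronglyMeasurable.mul h1.1
  refine h1.congr_norm h2 (Eventually.of_forall fun x => ?_)
  rw [norm_mul, norm_chr, one_mul]

theorem coe_shift (a : E) {f g : E → ℂ} (h : f =ᵐ[volume] g) (b : E) :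
    (fun x => chr b x * f (x - a)) =ᵐ[volume] fun x => chr b x * g (x - a) := by
  have := (mp_sub a).quasiMeasurePreserving.ae_eq_comp h
  filter_upwards [this] with x hx
  simp only [Function.comp] at hx
  rw [hx]

variable (E) in
/-- the Hilbert space `L²(E)` -/
noncomputable abbrev HL := Lp ℂ 2 (volume : Measure E)

/-- the time-frequency shift as a linear isometry -/
noncomputable def W₀ (a b : E) : HL E →ₗᵢ[ℂ] HL E where
  toFun f := (memLp_shift a b (Lp.memLp f)).toLp _
  map_add' f g := by
    ext1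
    refine (MemLp.coeFn_toLp _).trans ?_
    refine (coe_shift a (Lp.coeFn_add f g) b).trans ?_
    refine EventuallyEq.trans ?_ (Lp.coeFn_add _ _).symm
    filter_upwards [MemLp.coeFn_toLp (memLp_shift a b (Lp.memLp f)),
      MemLp.coeFn_toLp (memLp_shift a b (Lp.memLp g))] with x h1 h2
    rw [Pi.add_apply, Pi.add_apply, h1, h2]
    ring
  map_smul' c f := by
    ext1
    refine (MemLp.coeFn_toLp _).trans ?_
    refine (coe_shift a (Lp.coeFn_smul c f) b).trans ?_
    refine EventuallyEq.trans ?_ (Lp.coeFn_smul _ _).symm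
    filter_upwards [MemLp.coeFn_toLp (memLp_shift a b (Lp.memLp f))] with x h1
    simp only [Pi.smul_apply, RingHom.id_apply, smul_eq_mul] at *
    rw [h1]
    ring
  norm_map' f := by
    change ‖(memLp_shift a b (Lp.memLp f)).toLp _‖ = ‖f‖
    rw [Lp.norm_toLp, Lp.norm_def]
    congr 1
    have h1 : eLpNorm (fun x => chr b x * f (x - a)) 2 volume =
        eLpNorm (fun x => f (x - a)) 2 volume := by
      refine eLpNorm_congr_norm_ae (Eventually.of_forall fun x => ?_)
      rw [norm_mul, norm_chr, one_mul]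
    rw [h1]
    exact eLpNorm_comp_measurePreserving (Lp.memLp f).1 (mp_sub a)

theorem coeFn_W₀ (a b : E) (f : HL E) :
    (W₀ a b f : E → ℂ) =ᵐ[volume] fun x => chr b x * f (x - a) :=
  MemLp.coeFn_toLp (memLp_shift a b (Lp.memLp f))

theorem W₀_comp (a b a' b' : E) (f : HL E) :
    W₀ a b (W₀ a' b' f) = chr b' (-a) • W₀ (a + a') (b + b') f := by
  ext1
  refine (coeFn_W₀ a b _).trans ?_
  refine (coe_shift a (coeFn_W₀ a' b' f) b).trans ?_
  refine EventuallyEq.trans ?_ (Lp.coeFn_smul _ _).symm
  filter_upwards [coeFn_W₀ (a + a') (b + b') f] with x h1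
  rw [Pi.smul_apply, h1, smul_eq_mul, chr_add_left, sub_eq_add_neg x a, chr_add_right,
    ← sub_eq_add_neg, sub_sub]
  ring

theorem W₀_zero (f : HL E) : W₀ 0 0 f = f := by
  ext1
  refine (coeFn_W₀ 0 0 f).trans ?_
  filter_upwards with x
  rw [chr_zero_left, sub_zero, one_mul]

/-- the time-frequency shift as a unitary operator -/
noncomputable def W (a b : E) : HL E ≃ₗᵢ[ℂ] HL E :=
  LinearIsometryEquiv.ofSurjective (W₀ a b) (by
    intro y
    refine ⟨chr b (-a) • W₀ (-a) (-b) y, ?_⟩
    rw [map_smul, W₀_comp, smul_smul, add_neg_cancel, add_neg_cancel, W₀_zero]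
    have : chr b (-a) * chr (-b) (-a) = 1 := by
      rw [← chr_add_left, add_neg_cancel, chr_zero_left]
    rw [this, one_smul])

theorem coeFn_W (a b : E) (f : HL E) :
    (W a b f : E → ℂ) =ᵐ[volume] fun x => chr b x * f (x - a) := coeFn_W₀ a b f

theorem W_comp (a b a' b' : E) (f : HL E) :
    W a b (W a' b' f) = chr b' (-a) • W (a + a') (b + b') f := W₀_comp a b a' b' f

theorem W_zero (f : HL E) : W 0 0 f = f := W₀_zero f

/-- the Fourier transform turns translations into modulations -/
theorem fourier_W (a : E) (f : HL E) : (𝓕 (W a 0 f) : HL E) = W 0 (-a) (𝓕 f : HL E) := by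
  have hdense : DenseRange (SchwartzMap.toLpCLM ℂ (E := E) ℂ 2 volume) :=
    SchwartzMap.denseRange_toLpCLM ENNReal.ofNat_ne_top
  refine hdense.induction_on (p := fun f : HL E => (𝓕 (W a 0 f) : HL E) = W 0 (-a) (𝓕 f : HL E))
    f ?_ ?_
  · refine isClosed_eq ?_ ?_
    · exact (Lp.fourierTransformₗᵢ E ℂ).continuous.comp (W a 0).continuous
    · exact (W (0 : E) (-a)).continuous.comp (Lp.fourierTransformₗᵢ E ℂ).continuous
  · intro f
    have h1 : W a 0 (SchwartzMap.toLpCLM ℂ (E := E) ℂ 2 volume f) =
        (SchwartzMap.compSubConstCLM ℂ a f).toLp 2 := by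
      ext1
      refine (coeFn_W a 0 _).trans ?_
      refine (coe_shift a (SchwartzMap.coeFn_toLp f 2 volume) 0).trans ?_
      refine EventuallyEq.trans ?_ (SchwartzMap.coeFn_toLp _ 2 volume).symm
      filter_upwards with x
      rw [chr_zero_left, one_mul]
      rfl
    rw [h1]
    change (𝓕 ((SchwartzMap.compSubConstCLM ℂ a f).toLp 2) : HL E) =
      W 0 (-a) (𝓕 (f.toLp 2) : HL E)
    rw [SchwartzMap.toLp_fourier_eq, SchwartzMap.toLp_fourier_eq]
    ext1
    refine (SchwartzMap.coeFn_toLp _ 2 volume).trans ?_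
    refine EventuallyEq.trans ?_ (coeFn_W 0 (-a) _).symm
    refine EventuallyEq.trans ?_ (coe_shift 0 (SchwartzMap.coeFn_toLp _ 2 volume) (-a)).symm
    filter_upwards with w
    rw [sub_zero, SchwartzMap.fourier_coe, SchwartzMap.fourier_coe]
    rw [Real.fourier_eq, Real.fourier_eq]
    have h2 : ∫ v, 𝐞 (-inner ℝ v w) • (SchwartzMap.compSubConstCLM ℂ a f) v =
        ∫ v, 𝐞 (-inner ℝ (v + a) w) • f v := by
      rw [← integral_add_right_eq_self _ a]
      refine integral_congr_ae (Eventually.of_forall fun v => ?_)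
      simp
    rw [h2, ← integral_const_mul]
    refine integral_congr_ae (Eventually.of_forall fun v => ?_)
    simp only [Circle.smul_def, Real.fourierChar_apply, smul_eq_mul, chr]
    rw [← mul_assoc, ← Complex.exp_add]
    congr 2
    rw [inner_add_left, inner_neg_left]
    push_cast
    ring

end Pool.Agent.H737_BLT
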