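import Mathlib
import Pool.Agent.H737_BLT.Abs
import Pool.Agent.H737_BLT.Weyl

set_option autoImplicit false
set_option linter.unusedSectionVars false

/-!
# Gabor systems over symplectic lattices
-/

namespace Pool.Agent.H737_BLT

open scoped ENNReal NNReal ComplexConjugate
open Filter Topology MeasureTheory FourierTransform UnitAddTorus

/-- normalised measure on the circle -/
noncomputable local instance : MeasureSpace UnitAddCircle := ⟨AddCircle.haarAddCircle⟩
local instance : Measure.IsAddHaarMeasure (volume : Measure UnitAddCircle) :=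
  inferInstanceAs (Measure.IsAddHaarMeasure AddCircle.haarAddCircle)
local instance : IsProbabilityMeasure (volume : Measure UnitAddCircle) :=
  inferInstanceAs (IsProbabilityMeasure AddCircle.haarAddCircle)

variable {d : Type*} [Fintype d]

theorem mF_norm (k : d → ℤ) (x : UnitAddTorus d) : ‖mFourier k x‖ = 1 := by
  simp only [mFourier, ContinuousMap.coe_mk, norm_prod, fourier_apply, Circle.norm_coe,
    Finset.prod_const_one]

theorem mF_addx (k : d → ℤ) (x y : UnitAddTorus d) :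
    mFourier k (x + y) = mFourier k x * mFourier k y := by
  simp only [mFourier, ContinuousMap.coe_mk, ← Finset.prod_mul_distrib]
  refine Finset.prod_congr rfl fun i _ => ?_
  simp only [fourier_apply, Pi.add_apply, smul_add, AddCircle.toCircle_add, Circle.coe_mul]

theorem mF_coe (k : d → ℤ) (r : d → ℝ) :
    mFourier k (fun i => ((r i : ℝ) : UnitAddCircle)) = ex (∑ i, k i * r i) := by
  simp only [mFourier, ContinuousMap.coe_mk]
  have h1 : ∀ i, fourier (k i) ((r i : ℝ) : UnitAddCircle) = ex (k i * r i) := by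
    intro i
    rw [fourier_coe_apply]
    unfold ex
    congr 1
    push_cast
    ring
  simp only [h1]
  have h2 : ∀ s : Finset d, ∏ i ∈ s, ex (k i * r i) = ex (∑ i ∈ s, k i * r i) := by
    classical
    intro s
    induction s using Finset.induction_on with
    | empty => simp [ex_zero]
    | insert i s hi ih => rw [Finset.prod_insert hi, Finset.sum_insert hi, ex_add, ih]
  exact h2 _

theorem ex_int (n : ℤ) : ex n = 1 := by
  unfold ex
  rw [Complex.exp_eq_one_iff]
  exact ⟨n, by push_cast; ring⟩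

/-! ### the lattice -/

section lattice

variable {l : ℕ}

/-- `ℝ^l` -/
abbrev El (l : ℕ) := EuclideanSpace ℝ (Fin l)

/-- the point `M k` -/
noncomputable def pt (M : Matrix (Fin l ⊕ Fin l) (Fin l ⊕ Fin l) ℝ) (k : Fin l ⊕ Fin l → ℤ) :
    Fin l ⊕ Fin l → ℝ := M.mulVec (fun i => (k i : ℝ))

/-- first component -/
noncomputable def fstE (v : Fin l ⊕ Fin l → ℝ) : El l := WithLp.toLp 2 (fun j => v (Sum.inl j))
/-- second component -/
noncomputable def sndE (v : Fin l ⊕ Fin l → ℝ) : El l := WithLp.toLp 2 (fun j => v (Sum.inr j))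

/-- the standard symplectic matrix -/
def Jm (l : ℕ) : Matrix (Fin l ⊕ Fin l) (Fin l ⊕ Fin l) ℝ := Matrix.fromBlocks 0 1 (-1) 0

theorem pt_add (M : Matrix (Fin l ⊕ Fin l) (Fin l ⊕ Fin l) ℝ) (k k' : Fin l ⊕ Fin l → ℤ) :
    pt M (k + k') = pt M k + pt M k' := by
  unfold pt
  rw [← Matrix.mulVec_add]
  congr 1
  funext i
  simp

theorem fstE_add (v w : Fin l ⊕ Fin l → ℝ) : fstE (v + w) = fstE v + fstE w := rfl
theorem sndE_add (v w : Fin l ⊕ Fin l → ℝ) : sndE (v + w) = sndE v + sndE w := rfl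

theorem inner_eq (v w : Fin l ⊕ Fin l → ℝ) :
    (inner ℝ (sndE v) (fstE w) : ℝ) = ∑ j, v (Sum.inr j) * w (Sum.inl j) := by
  simp only [sndE, fstE, PiLp.inner_apply]
  refine Finset.sum_congr rfl fun j _ => ?_
  simp [mul_comm]

/-- the symplectic form -/
theorem symp_form (v w : Fin l ⊕ Fin l → ℝ) : v ⬝ᵥ ((Jm l).mulVec w) =
    ∑ j, v (Sum.inl j) * w (Sum.inr j) - ∑ j, v (Sum.inr j) * w (Sum.inl j) := by
  simp only [dotProduct, Fintype.sum_sum_type, Jm, Matrix.mulVec, Matrix.fromBlocks_apply₁₁,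
    Matrix.fromBlocks_apply₁₂, Matrix.fromBlocks_apply₂₁, Matrix.fromBlocks_apply₂₂]
  simp [Matrix.one_apply, Matrix.neg_apply]
  ring

theorem symp_inv {M : Matrix (Fin l ⊕ Fin l) (Fin l ⊕ Fin l) ℝ} (hM : M.transpose * Jm l * M = Jm l)
    (v w : Fin l ⊕ Fin l → ℝ) : (M.mulVec v) ⬝ᵥ ((Jm l).mulVec (M.mulVec w)) =
      v ⬝ᵥ ((Jm l).mulVec w) := by
  conv_rhs => rw [← hM]
  rw [← Matrix.mulVec_mulVec, ← Matrix.mulVec_mulVec, Matrix.dotProduct_mulVec v,
    Matrix.vecMul_transpose]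

/-- the integer quadratic correction -/
noncomputable def qk (k : Fin l ⊕ Fin l → ℤ) : ℝ := ∑ j, (k (Sum.inl j) : ℝ) * (k (Sum.inr j) : ℝ)

theorem qk_add {M : Matrix (Fin l ⊕ Fin l) (Fin l ⊕ Fin l) ℝ} (hM : M.transpose * Jm l * M = Jm l)
    (k k' : Fin l ⊕ Fin l → ℤ) : ∃ n : ℤ,
    (qk k - inner ℝ (sndE (pt M k)) (fstE (pt M k))) / 2 +
      (qk k' - inner ℝ (sndE (pt M k')) (fstE (pt M k'))) / 2 -
      inner ℝ (sndE (pt M k')) (fstE (pt M k)) =
    (qk (k + k') - inner ℝ (sndE (pt M (k + k'))) (fstE (pt M (k + k')))) / 2 + n := by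
  refine ⟨-∑ j, k (Sum.inl j) * k' (Sum.inr j), ?_⟩
  have h1 := symp_inv hM (fun i => (k i : ℝ)) (fun i => (k' i : ℝ))
  rw [symp_form, symp_form] at h1
  have h2 : qk (k + k') = qk k + qk k' + ∑ j, (k (Sum.inl j) : ℝ) * (k' (Sum.inr j) : ℝ) +
      ∑ j, (k' (Sum.inl j) : ℝ) * (k (Sum.inr j) : ℝ) := by
    simp only [qk, ← Finset.sum_add_distrib]
    refine Finset.sum_congr rfl fun j _ => ?_
    simp only [Pi.add_apply]
    push_cast
    ring
  have h3 : (inner ℝ (sndE (pt M (k + k'))) (fstE (pt M (k + k'))) : ℝ) =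
      inner ℝ (sndE (pt M k)) (fstE (pt M k)) + inner ℝ (sndE (pt M k')) (fstE (pt M k')) +
      inner ℝ (sndE (pt M k)) (fstE (pt M k')) + inner ℝ (sndE (pt M k')) (fstE (pt M k)) := by
    rw [pt_add, fstE_add, sndE_add, inner_add_left, inner_add_right, inner_add_right]
    ring
  have h4 : (inner ℝ (sndE (pt M k')) (fstE (pt M k)) : ℝ) -
      inner ℝ (sndE (pt M k)) (fstE (pt M k')) =
      ∑ j, (k (Sum.inl j) : ℝ) * (k' (Sum.inr j) : ℝ) -
      ∑ j, (k (Sum.inr j) : ℝ) * (k' (Sum.inl j) : ℝ) := by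
    rw [inner_eq, inner_eq]
    have e1 : ∑ j, pt M k' (Sum.inr j) * pt M k (Sum.inl j) =
        ∑ j, M.mulVec (fun i => (k i : ℝ)) (Sum.inl j) * M.mulVec (fun i => (k' i : ℝ)) (Sum.inr j) :=
      Finset.sum_congr rfl fun j _ => by simp only [pt]; ring
    have e2 : ∑ j, pt M k (Sum.inr j) * pt M k' (Sum.inl j) =
        ∑ j, M.mulVec (fun i => (k i : ℝ)) (Sum.inr j) * M.mulVec (fun i => (k' i : ℝ)) (Sum.inl j) :=
      Finset.sum_congr rfl fun j _ => by simp only [pt]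
    rw [e1, e2]
    exact h1
  have h5 : ∑ j, (k' (Sum.inl j) : ℝ) * (k (Sum.inr j) : ℝ) =
      ∑ j, (k (Sum.inr j) : ℝ) * (k' (Sum.inl j) : ℝ) :=
    Finset.sum_congr rfl fun j _ => mul_comm _ _
  rw [h2, h3, h5]
  push_cast
  linarith

/-- the phase -/
noncomputable def ph (M : Matrix (Fin l ⊕ Fin l) (Fin l ⊕ Fin l) ℝ) (k : Fin l ⊕ Fin l → ℤ) : ℂ :=
  ex ((qk k - inner ℝ (sndE (pt M k)) (fstE (pt M k))) / 2)

theorem chr_eq_ex {E : Type*} [NormedAddCommGroup E] [InnerProductSpace ℝ E] (b x : E) :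
    chr b x = ex (inner ℝ b x) := by
  unfold chr ex
  congr 1
  push_cast
  ring

/-- the commuting unitaries -/
noncomputable def Uk (M : Matrix (Fin l ⊕ Fin l) (Fin l ⊕ Fin l) ℝ) (k : Fin l ⊕ Fin l → ℤ) :
    HL (El l) →L[ℂ] HL (El l) :=
  ph M k • ((W (fstE (pt M k)) (sndE (pt M k))).toContinuousLinearEquiv : HL (El l) →L[ℂ] HL (El l))

theorem Uk_apply (M : Matrix (Fin l ⊕ Fin l) (Fin l ⊕ Fin l) ℝ) (k : Fin l ⊕ Fin l → ℤ)
    (f : HL (El l)) : Uk M k f = ph M k • W (fstE (pt M k)) (sndE (pt M k)) f := rfl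

theorem Uk_comp {M : Matrix (Fin l ⊕ Fin l) (Fin l ⊕ Fin l) ℝ} (hM : M.transpose * Jm l * M = Jm l)
    (k k' : Fin l ⊕ Fin l → ℤ) (f : HL (El l)) : Uk M k (Uk M k' f) = Uk M (k + k') f := by
  rw [Uk_apply, Uk_apply, Uk_apply, map_smul, W_comp, smul_smul, smul_smul, pt_add, fstE_add,
    sndE_add]
  congr 1
  rw [chr_eq_ex, inner_neg_right]
  obtain ⟨n, hn⟩ := qk_add hM k k'
  unfold ph
  rw [← ex_add, ← ex_add]
  have h1 : (qk k - inner ℝ (sndE (pt M k)) (fstE (pt M k))) / 2 +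
      (qk k' - inner ℝ (sndE (pt M k')) (fstE (pt M k'))) / 2 +
      -inner ℝ (sndE (pt M k')) (fstE (pt M k)) =
    (qk (k + k') - inner ℝ (sndE (pt M (k + k'))) (fstE (pt M (k + k')))) / 2 + n := by
    rw [← hn]; ring
  rw [h1, ex_add, ex_int, mul_one]

theorem ph_norm (M : Matrix (Fin l ⊕ Fin l) (Fin l ⊕ Fin l) ℝ) (k : Fin l ⊕ Fin l → ℤ) :
    ‖ph M k‖ = 1 := norm_ex _

theorem Uk_zero (M : Matrix (Fin l ⊕ Fin l) (Fin l ⊕ Fin l) ℝ) (f : HL (El l)) :
    Uk M 0 f = f := by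
  have h0 : pt M 0 = 0 := by
    unfold pt
    have : (fun i => (((0 : Fin l ⊕ Fin l → ℤ) i : ℤ) : ℝ)) = (0 : Fin l ⊕ Fin l → ℝ) := by
      funext i; simp
    rw [this, Matrix.mulVec_zero]
  have h1 : fstE (0 : Fin l ⊕ Fin l → ℝ) = 0 := rfl
  have h2 : sndE (0 : Fin l ⊕ Fin l → ℝ) = 0 := rfl
  rw [Uk_apply, h0, h1, h2, W_zero]
  have h3 : ph M 0 = 1 := by
    unfold ph
    rw [h0, h1, h2]
    simp [qk, ex_zero]
  rw [h3, one_smul]

/-- the system attached to a Gabor Riesz basis -/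
theorem exists_sys {M : Matrix (Fin l ⊕ Fin l) (Fin l ⊕ Fin l) ℝ}
    (hM : M.transpose * Jm l * M = Jm l) (g : HL (El l)) {ι : Type*}
    (σ : (Fin l ⊕ Fin l → ℤ) ≃ ι) (b₀ : HilbertBasis ι ℂ (HL (El l)))
    (T₀ : HL (El l) ≃L[ℂ] HL (El l))
    (hT : ∀ k, T₀ (b₀ (σ k)) = W (fstE (pt M k)) (sndE (pt M k)) g) :
    ∃ S : Sys (UnitAddTorus (Fin l ⊕ Fin l)) volume (Fin l ⊕ Fin l → ℤ) (HL (El l)),
      S.g = g ∧ (∀ k, S.U k = Uk M k) ∧ (∀ k x, S.e k x = mFourier k x) := by
  set v : (Fin l ⊕ Fin l → ℤ) → HL (El l) := fun k => ph M k • b₀ (σ k) with hv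
  have hne : ∀ k, ph M k ≠ 0 := by
    intro k h
    have := ph_norm M k
    rw [h] at this
    simp at this
  have hortho : Orthonormal ℂ v := by
    constructor
    · intro k
      rw [hv]
      simp only
      rw [norm_smul, ph_norm, one_mul, b₀.orthonormal.1]
    · intro k k' hkk
      simp only [hv]
      rw [inner_smul_left, inner_smul_right, b₀.orthonormal.2 (fun h => hkk (σ.injective h))]
      simp
  have hbot : (Submodule.span ℂ (Set.range v))ᗮ = ⊥ := by
    rw [Submodule.eq_bot_iff]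
    intro x hx
    rw [Submodule.mem_orthogonal] at hx
    have h1 : ∀ i, inner ℂ (b₀ i) x = 0 := by
      intro i
      have h2 := hx (v (σ.symm i)) (Submodule.subset_span ⟨_, rfl⟩)
      simp only [hv] at h2
      rw [Equiv.apply_symm_apply, inner_smul_left] at h2
      rcases mul_eq_zero.1 h2 with h3 | h3
      · exact absurd ((map_eq_zero _).1 h3) (hne _)
      · exact h3
    have h4 : b₀.repr x = 0 := by
      ext i
      rw [b₀.repr_apply_apply, h1]
      rfl
    simpa using h4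
  set B : HilbertBasis (Fin l ⊕ Fin l → ℤ) ℂ (HL (El l)) :=
    HilbertBasis.mkOfOrthogonalEqBot hortho hbot with hB
  have hBv : ∀ k, B k = v k := by
    intro k
    rw [hB, HilbertBasis.coe_mkOfOrthogonalEqBot]
  set T : Lp ℂ 2 (volume : Measure (UnitAddTorus (Fin l ⊕ Fin l))) ≃L[ℂ] HL (El l) :=
    ((mFourierBasis.repr.trans B.repr.symm).toContinuousLinearEquiv).trans T₀ with hTdef
  have hTb : ∀ k, T (mFourierBasis k) = Uk M k g := by
    intro k
    have h1 : (mFourierBasis.repr.trans B.repr.symm) (mFourierBasis k) = B k := by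
      classical
      rw [LinearIsometryEquiv.trans_apply, HilbertBasis.repr_self, HilbertBasis.repr_symm_single]
    have h2 : T (mFourierBasis k) = T₀ (B k) := by
      rw [← h1]; rfl
    rw [h2, hBv, Uk_apply, ← hT k, hv, map_smul]
  refine ⟨{ e := fun k x => mFourier k x, e_meas := fun k => (mFourier k).continuous.measurable,
            e_norm := mF_norm, e_addx := mF_addx, e_addk := fun k k' x => mFourier_add,
            b := mFourierBasis, hb := fun k => ?_, T := T, U := Uk M, g := g, hTb := hTb,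
            hU := fun k k' => Uk_comp hM k k' g, hU0 := Uk_zero M g },
          rfl, fun k => rfl, fun k x => rfl⟩
  rw [coe_mFourierBasis]
  exact coeFn_mFourierLp 2 k

end lattice

end Pool.Agent.H737_BLT
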