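import Mathlib
import Pool.Agent.H737_BLT.Lattice

set_option autoImplicit false
set_option linter.unusedSectionVars false

/-!
# The nonsymmetric Balian-Low theorem for symplectic lattices
-/

namespace Pool.Agent.H737_BLT

open scoped ENNReal NNReal ComplexConjugate
open Filter Topology MeasureTheory FourierTransform UnitAddTorus

/-- normalised measure on the circle -/
noncomputable local instance : MeasureSpace UnitAddCircle := ⟨AddCircle.haarAddCircle⟩
local instance : Measure.IsAddHaarMeasure (volume : Measure UnitAddCircle) :=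
  inferInstanceAs (Measure.IsAddHaarMeasure AddCircle.haarAddCircle)
local instance : IsProbabilityMeasure (volume : Measure UnitAddCircle) :=
  inferInstanceAs (IsProbabilityMeasure AddCircle.haarAddCircle)

variable {l : ℕ}

/-- modulation group -/
noncomputable def Pg (j : Fin l) (s : ℝ) : HL (El l) ≃ₗᵢ[ℂ] HL (El l) :=
  W 0 (EuclideanSpace.single j s)

/-- translation group -/
noncomputable def Qg (j : Fin l) (s : ℝ) : HL (El l) ≃ₗᵢ[ℂ] HL (El l) :=
  W (-(EuclideanSpace.single j s)) 0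

theorem inner_single' (j : Fin l) (s : ℝ) (x : El l) :
    (inner ℝ (EuclideanSpace.single j s : El l) x : ℝ) = s * x j := by
  rw [EuclideanSpace.inner_single_left]
  simp

theorem inner_single'' (j : Fin l) (s : ℝ) (x : El l) :
    (inner ℝ x (EuclideanSpace.single j s : El l) : ℝ) = s * x j := by
  rw [EuclideanSpace.inner_single_right]
  simp

theorem covP {M : Matrix (Fin l ⊕ Fin l) (Fin l ⊕ Fin l) ℝ}
    (S : Sys (UnitAddTorus (Fin l ⊕ Fin l)) volume (Fin l ⊕ Fin l → ℤ) (HL (El l)))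
    (hU : ∀ k, S.U k = Uk M k) (he : ∀ k x, S.e k x = mFourier k x) (j : Fin l) (s : ℝ) :
    S.Cov (Pg j s) (fun i => ((s * M (Sum.inl j) i : ℝ) : UnitAddCircle)) := by
  intro k x
  rw [hU, he, mF_coe, Uk_apply, Uk_apply, map_smul, Pg, W_comp, W_comp, smul_smul, smul_smul,
    smul_smul]
  rw [zero_add, add_zero, add_comm (sndE (pt M k))]
  congr 1
  rw [chr_eq_ex, chr_eq_ex, neg_zero, inner_zero_right, ex_zero, mul_one, inner_neg_right,
    inner_single', mul_assoc, mul_comm (ph M k), ← mul_assoc, ← ex_add]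
  have h1 : (∑ i, (k i : ℝ) * (s * M (Sum.inl j) i)) + -(s * (fstE (pt M k)) j) = 0 := by
    have : (fstE (pt M k)) j = ∑ i, M (Sum.inl j) i * (k i : ℝ) := rfl
    rw [this, Finset.mul_sum, ← sub_eq_add_neg, ← Finset.sum_sub_distrib]
    refine Finset.sum_eq_zero fun i _ => ?_
    ring
  rw [h1, ex_zero, one_mul]

theorem covQ {M : Matrix (Fin l ⊕ Fin l) (Fin l ⊕ Fin l) ℝ}
    (S : Sys (UnitAddTorus (Fin l ⊕ Fin l)) volume (Fin l ⊕ Fin l → ℤ) (HL (El l)))
    (hU : ∀ k, S.U k = Uk M k) (he : ∀ k x, S.e k x = mFourier k x) (j : Fin l) (s : ℝ) :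
    S.Cov (Qg j s) (fun i => ((s * M (Sum.inr j) i : ℝ) : UnitAddCircle)) := by
  intro k x
  rw [hU, he, mF_coe, Uk_apply, Uk_apply, map_smul, Qg, W_comp, W_comp, smul_smul, smul_smul,
    smul_smul]
  rw [zero_add, add_zero, add_comm (fstE (pt M k))]
  congr 1
  rw [chr_eq_ex, chr_eq_ex, neg_neg, inner_zero_left, ex_zero, mul_one, inner_single'']
  have h1 : (∑ i, (k i : ℝ) * (s * M (Sum.inr j) i)) = s * (sndE (pt M k)) j := by
    have : (sndE (pt M k)) j = ∑ i, M (Sum.inr j) i * (k i : ℝ) := rfl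
    rw [this, Finset.mul_sum]
    refine Finset.sum_congr rfl fun i _ => ?_
    ring
  rw [h1, mul_comm]

theorem rel (j : Fin l) (g : HL (El l)) (h t : ℝ) :
    Qg j t (Pg j h g) = ex (h * t) • Pg j h (Qg j t g) := by
  rw [Qg, Pg, W_comp, W_comp, smul_smul]
  rw [zero_add, add_zero, add_zero, zero_add, neg_neg, neg_zero, chr_zero_right, mul_one]
  congr 1
  rw [chr_eq_ex, inner_single']
  simp

theorem coeP (j : Fin l) (s : ℝ) (x : HL (El l)) :
    (LinearIsometryEquiv.refl ℂ (HL (El l)) (Pg j s x) : El l → ℂ) =ᵐ[volume]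
      fun y => ex (s * y j) * LinearIsometryEquiv.refl ℂ (HL (El l)) x y := by
  filter_upwards [coeFn_W 0 (EuclideanSpace.single j s) x] with y hy
  change (W 0 (EuclideanSpace.single j s) x : El l → ℂ) y = ex (s * y j) * x y
  rw [hy, sub_zero, chr_eq_ex, inner_single']

theorem coeQ (j : Fin l) (s : ℝ) (x : HL (El l)) :
    (Lp.fourierTransformₗᵢ (El l) ℂ (Qg j s x) : El l → ℂ) =ᵐ[volume]
      fun y => ex (s * y j) * Lp.fourierTransformₗᵢ (El l) ℂ x y := by
  have h1 : Lp.fourierTransformₗᵢ (El l) ℂ (Qg j s x) =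
      W 0 (EuclideanSpace.single j s) (Lp.fourierTransformₗᵢ (El l) ℂ x) := by
    have := fourier_W (-(EuclideanSpace.single j s)) x
    rw [neg_neg] at this
    exact this
  rw [h1]
  filter_upwards [coeFn_W 0 (EuclideanSpace.single j s) (Lp.fourierTransformₗᵢ (El l) ℂ x)] with y hy
  rw [hy, sub_zero, chr_eq_ex, inner_single']

theorem integrable_of_ne_top {F : El l → ℝ} (hF : AEStronglyMeasurable F volume) (h0 : ∀ x, 0 ≤ F x)
    (h : ∫⁻ x, ENNReal.ofReal (F x) ≠ ∞) : Integrable F volume := by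
  refine ⟨hF, ?_⟩
  rw [hasFiniteIntegral_iff_ofReal (ae_of_all _ h0)]
  exact h.lt_top

theorem meas_coord (j : Fin l) : Measurable fun x : El l => x j := by
  have : Continuous fun x : El l => x j := by fun_prop
  exact this.measurable

theorem aesm (f : HL (El l)) (j : Fin l) (p : ℝ) :
    AEStronglyMeasurable (fun x : El l => |x j| ^ p * ‖f x‖ ^ 2) volume := by
  have h1 : Measurable fun x : El l => |x j| ^ p := by
    exact ((continuous_abs.measurable.comp (meas_coord j))).pow_const p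
  exact h1.aestronglyMeasurable.mul ((Lp.aestronglyMeasurable f).norm.pow 2)

theorem aesm' (f : HL (El l)) (j : Fin l) :
    AEStronglyMeasurable (fun x : El l => |x j| * ‖f x‖ ^ 2) volume := by
  have h1 : Measurable fun x : El l => |x j| :=
    (continuous_abs.measurable.comp (meas_coord j))
  exact h1.aestronglyMeasurable.mul ((Lp.aestronglyMeasurable f).norm.pow 2)

theorem coord_bound {C : Set (El l)} (hC : IsCompact C) (j : Fin l) :
    ∃ R : ℝ, 0 < R ∧ ∀ x ∈ C, |x j| ≤ R := by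
  obtain ⟨R, hR⟩ := hC.isBounded.exists_norm_le
  refine ⟨max R 1, by positivity, fun x hx => ?_⟩
  have h1 : ‖x j‖ ≤ ‖x‖ := PiLp.norm_apply_le x j
  exact (h1.trans (hR x hx)).trans (le_max_left _ _)

/-- The theorem for the matrix form of the lattice. -/
theorem main {M : Matrix (Fin l ⊕ Fin l) (Fin l ⊕ Fin l) ℝ}
    (hM : M.transpose * Jm l * M = Jm l) (g : HL (El l)) {ι : Type*}
    (σ : (Fin l ⊕ Fin l → ℤ) ≃ ι) (b₀ : HilbertBasis ι ℂ (HL (El l)))
    (T₀ : HL (El l) ≃L[ℂ] HL (El l))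
    (hT : ∀ k, T₀ (b₀ (σ k)) = W (fstE (pt M k)) (sndE (pt M k)) g) (j : Fin l) :
    (∀ p q : ℝ, 1 < p → 1 < q → 1 / p + 1 / q = 1 →
      ∫⁻ x, ENNReal.ofReal (|x j| ^ p * ‖g x‖ ^ 2) = ∞ ∨
      ∫⁻ ξ, ENNReal.ofReal (|ξ j| ^ q * ‖(𝓕 g : HL (El l)) ξ‖ ^ 2) = ∞) ∧
    ((∃ C : Set (El l), IsCompact C ∧ ∀ᵐ x, x ∉ C → g x = 0) →
      ∫⁻ ξ, ENNReal.ofReal (|ξ j| * ‖(𝓕 g : HL (El l)) ξ‖ ^ 2) = ∞) ∧
    ((∃ C : Set (El l), IsCompact C ∧ ∀ᵐ ξ, ξ ∉ C → (𝓕 g : HL (El l)) ξ = 0) →
      ∫⁻ x, ENNReal.ofReal (|x j| * ‖g x‖ ^ 2) = ∞) := by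
  obtain ⟨S, hSg, hU, he⟩ := exists_sys hM g σ b₀ T₀ hT
  have hP := covP S hU he j
  have hQ := covQ S hU he j
  refine ⟨fun p q hp hq hpq => ?_, fun hC => ?_, fun hC => ?_⟩
  · by_contra hcon
    rw [not_or] at hcon
    refine Sys.blt_pq (S := S) hP hQ (fun h t => rel j S.g h t)
      (LinearIsometryEquiv.refl ℂ (HL (El l))) (fun x => x j) (meas_coord j) (fun s x => coeP j s x)
      (Lp.fourierTransformₗᵢ (El l) ℂ) (fun x => x j) (meas_coord j) (fun s x => coeQ j s x)
      hp hq hpq ?_ ?_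
    · rw [hSg]
      exact integrable_of_ne_top (aesm g j p) (fun x => by positivity) hcon.1
    · rw [hSg]
      exact integrable_of_ne_top (aesm (𝓕 g : HL (El l)) j q) (fun x => by positivity) hcon.2
  · by_contra hcon
    obtain ⟨C, hC1, hC2⟩ := hC
    obtain ⟨R, hR, hR2⟩ := coord_bound hC1 j
    refine Sys.blt_band (S := S) hP hQ (fun h t hh ht hht => ?_)
      (LinearIsometryEquiv.refl ℂ (HL (El l))) (fun x => x j) (meas_coord j) (fun s x => coeP j s x)
      (Lp.fourierTransformₗᵢ (El l) ℂ) (fun x => x j) (meas_coord j) (fun s x => coeQ j s x)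
      hR ?_ ?_
    · have := S.key (hQ t) (hP h) (s := h * t) (by positivity) hht (rel j S.g h t)
      linarith
    · rw [hSg]
      filter_upwards [hC2] with x hx
      by_cases hxC : x ∈ C
      · exact Or.inl (hR2 x hxC)
      · exact Or.inr (hx hxC)
    · rw [hSg]
      exact integrable_of_ne_top (aesm' (𝓕 g : HL (El l)) j) (fun x => by positivity) hcon
  · by_contra hcon
    obtain ⟨C, hC1, hC2⟩ := hC
    obtain ⟨R, hR, hR2⟩ := coord_bound hC1 j
    refine Sys.blt_band (S := S) hQ hP (fun h t hh ht hht => ?_)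
      (Lp.fourierTransformₗᵢ (El l) ℂ) (fun x => x j) (meas_coord j) (fun s x => coeQ j s x)
      (LinearIsometryEquiv.refl ℂ (HL (El l))) (fun x => x j) (meas_coord j) (fun s x => coeP j s x)
      hR ?_ ?_
    · have := S.key (hQ h) (hP t) (s := t * h) (by positivity) (by linarith) (rel j S.g t h)
      linarith
    · rw [hSg]
      filter_upwards [hC2] with x hx
      by_cases hxC : x ∈ C
      · exact Or.inl (hR2 x hxC)
      · exact Or.inr (hx hxC)
    · rw [hSg]
      exact integrable_of_ne_top (aesm' g j) (fun x => by positivity) hcon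

/-- the Fourier transform on `L²` is characterised by duality with Schwartz functions -/
theorem fourier_char (G Γ : HL (El l))
    (h : ∀ φ : SchwartzMap (El l) ℂ, ∫ ξ, (Γ : El l → ℂ) ξ * φ ξ =
      ∫ x, (G : El l → ℂ) x * (𝓕 φ : SchwartzMap (El l) ℂ) x) :
    Γ = (𝓕 G : HL (El l)) := by
  have hker := Lp.ker_toTemperedDistributionCLM_eq_bot (E := El l) (F := ℂ) (p := 2)
    (μ := (volume : Measure (El l)))
  have hinj : Function.Injective (Lp.toTemperedDistributionCLM (E := El l) ℂ volume 2) :=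
    LinearMap.ker_eq_bot.1 hker
  apply hinj
  rw [Lp.toTemperedDistributionCLM_apply, Lp.toTemperedDistributionCLM_apply]
  rw [← Lp.fourier_toTemperedDistribution_eq]
  ext φ
  rw [TemperedDistribution.fourier_apply, Lp.toTemperedDistribution_apply,
    Lp.toTemperedDistribution_apply]
  simp only [smul_eq_mul]
  have := h φ
  simp only [mul_comm] at this ⊢
  exact this

theorem fourier_dual (G : HL (El l)) (φ : SchwartzMap (El l) ℂ) :
    ∫ ξ, ((𝓕 G : HL (El l)) : El l → ℂ) ξ * φ ξ =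
      ∫ x, (G : El l → ℂ) x * (𝓕 φ : SchwartzMap (El l) ℂ) x := by
  have h1 := congrArg (fun T : TemperedDistribution (El l) ℂ => T φ)
    (Lp.fourier_toTemperedDistribution_eq G)
  beta_reduce at h1
  rw [TemperedDistribution.fourier_apply, Lp.toTemperedDistribution_apply,
    Lp.toTemperedDistribution_apply] at h1
  simp only [smul_eq_mul] at h1
  simp only [mul_comm] at h1 ⊢
  exact h1.symm

theorem schwartz_fourier (φ : SchwartzMap (El l) ℂ) (x : El l) :
    (𝓕 φ : SchwartzMap (El l) ℂ) x =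
      ∫ y, Complex.exp (-(2 * (Real.pi : ℂ) * Complex.I * ((∑ j, y j * x j : ℝ) : ℂ))) * φ y := by
  rw [SchwartzMap.fourier_coe, Real.fourier_eq]
  refine integral_congr_ae (Eventually.of_forall fun v => ?_)
  simp only [Circle.smul_def, Real.fourierChar_apply, smul_eq_mul]
  congr 2
  have : (inner ℝ v x : ℝ) = ∑ j, v j * x j := by
    simp only [PiLp.inner_apply]
    refine Finset.sum_congr rfl fun j _ => ?_
    simp [mul_comm]
  rw [this]
  push_cast
  ring

end Pool.Agent.H737_BLT
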